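import Pool.Agent.W602.TL.Mean

/-!
Projective varieties with a morphism to the projective plane. Such a variety is isomorphic to the
graph of the morphism, a closed subset of the product of a projective space and the projective
plane; the morphism is the second projection.
-/

set_option autoImplicit false

namespace Pool.Agent.W602.TL

open Filter Metric Real Set Topology Pool.Agent.H159R3.NV Pool.Agent.W602.NC MvPolynomial

/-- polynomials in the coordinates `u` and `v` -/
abbrev BiPoly (N : ℕ) : Type := MvPolynomial (Fin (N + 1) ⊕ Fin 3) ℂ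

/-- value of a polynomial at `(u, v)` -/
noncomputable def ev2 {N : ℕ} (u : Fin (N + 1) → ℂ) (v : Fin 3 → ℂ) (P : BiPoly N) : ℂ :=
  eval (Sum.elim u v) P

/-- bihomogeneous polynomials -/
def BiHom {N : ℕ} (P : BiPoly N) : Prop :=
  ∃ a b : ℕ, ∀ (s t : ℂ) (u : Fin (N + 1) → ℂ) (v : Fin 3 → ℂ),
    ev2 (s • u) (t • v) P = s ^ a * t ^ b * ev2 u v P

/-- closed subsets of the product of projective `N`-space and the projective plane -/
structure BiSet (N : ℕ) where
  /-- the equations -/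
  I : Set (BiPoly N)
  hom : ∀ P ∈ I, BiHom P

namespace BiSet

variable {N : ℕ} (X : BiSet N)

/-- the points, in homogeneous coordinates -/
def Mem (u : Fin (N + 1) → ℂ) (v : Fin 3 → ℂ) : Prop :=
  u ≠ 0 ∧ v ≠ 0 ∧ ∀ P ∈ X.I, ev2 u v P = 0

/-- entire curves, in homogeneous coordinates -/
structure EntireCurve (u : ℂ → Fin (N + 1) → ℂ) (v : ℂ → Fin 3 → ℂ) : Prop where
  diffu : ∀ j, Differentiable ℂ fun z => u z j
  diffv : ∀ j, Differentiable ℂ fun z => v z j
  mem : ∀ z, X.Mem (u z) (v z)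
  nonconst : ∃ z z', (∀ t : ℂ, u z' ≠ t • u z) ∨ (∀ t : ℂ, v z' ≠ t • v z)

/-- germs of analytic arcs, in homogeneous coordinates -/
structure Arc (u : ℂ → Fin (N + 1) → ℂ) (v : ℂ → Fin 3 → ℂ) : Prop where
  anu : ∀ j, AnalyticAt ℂ (fun z => u z j) 0
  anv : ∀ j, AnalyticAt ℂ (fun z => v z j) 0
  mem : ∀ᶠ z in 𝓝 0, X.Mem (u z) (v z)

/-- The projection to the plane is ramified over the lines `ℓ i` with mean multiplicity at least
`μ`: if an arc in `X` meets the lines with the multiplicities `a i`, the mean of the nonzero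
numbers among the `a i` is at least `μ`. -/
def MeanRamified {q : ℕ} (ℓ : Fin q → Fin 3 → ℂ) (μ : ℝ) : Prop :=
  ∀ u v, X.Arc u v → ∀ a : Fin q → ℕ,
    (∀ i, analyticOrderAt (fun z => ∑ j, ℓ i j * v z j) 0 = a i) →
      μ * (Finset.univ.filter fun i => a i ≠ 0).card ≤ ∑ i, (a i : ℝ)

/-- the projection to the plane is dominant -/
def Dominant : Prop := ∀ (R : MvPolynomial (Fin 3) ℂ) (e : ℕ), R.IsHomogeneous e → R ≠ 0 →
  ∃ u v, X.Mem u v ∧ eval v R ≠ 0

/-- the projection to the plane has finite fibres outside some curve -/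
def GenFinite : Prop := ∃ (D : MvPolynomial (Fin 3) ℂ) (e : ℕ), D.IsHomogeneous e ∧ D ≠ 0 ∧
  ∀ v, eval v D ≠ 0 → ∃ T : Finset (Fin (N + 1) → ℂ), ∀ u, X.Mem u v → ∃ t ∈ T, ∃ c : ℂ, u = c • t

/-- All entire curves lie in a proper closed subset. -/
def PseudoBrody : Prop := ∃ G : BiPoly N, BiHom G ∧ (∃ u v, X.Mem u v ∧ ev2 u v G ≠ 0) ∧
  ∀ u v, X.EntireCurve u v → ∀ z, ev2 (u z) (v z) G = 0

end BiSet

theorem sum_dt (a x : V) : ∑ j, a j * x j = dt a x := by
  rw [Fin.sum_univ_three]; rfl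

theorem exists_AB {μ : ℝ} {q K : ℕ} (hμ : 1 < μ) (h1 : 4 * μ ^ 2 < q * (μ - 1) ^ 2)
    (h2 : 2 * K * μ < q * (μ - 1)) :
    ∃ A B : ℕ, B < A ∧ (A : ℝ) ≤ B * μ ∧ 4 * A ^ 2 < q * (A - B) ^ 2 ∧
      2 * (K * A) < q * (A - B) := by
  have c1 : Continuous fun t : ℝ => q * (t - 1) ^ 2 - 4 * t ^ 2 := by fun_prop
  have c2 : Continuous fun t : ℝ => q * (t - 1) - 2 * K * t := by fun_prop
  have e1 : ∀ᶠ t : ℝ in 𝓝 μ, 0 < q * (t - 1) ^ 2 - 4 * t ^ 2 :=
    c1.continuousAt.eventually (lt_mem_nhds (by linarith))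
  have e2 : ∀ᶠ t : ℝ in 𝓝 μ, 0 < q * (t - 1) - 2 * K * t :=
    c2.continuousAt.eventually (lt_mem_nhds (by linarith))
  have e3 : ∀ᶠ t : ℝ in 𝓝 μ, 1 < t := lt_mem_nhds hμ
  obtain ⟨ε, hε, hb⟩ := Metric.eventually_nhds_iff.mp (e1.and (e2.and e3))
  obtain ⟨r, hr1, hr2⟩ := exists_rat_btwn (show μ - ε < μ by linarith)
  obtain ⟨f1, f2, f3⟩ := hb (y := (r : ℝ)) (by
    rw [Real.dist_eq, abs_lt]
    constructor <;> linarith)
  have hrpos : 0 < r := by
    have : (0 : ℝ) < r := by linarith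
    exact_mod_cast this
  have hden : (0 : ℝ) < r.den := by exact_mod_cast r.den_pos
  obtain ⟨A, hA⟩ : ∃ A : ℕ, r.num = A := ⟨r.num.toNat, (Int.toNat_of_nonneg
    (Rat.num_nonneg.mpr hrpos.le)).symm⟩
  have hrA : (r : ℝ) * r.den = A := by
    have h3 : (r : ℝ) = (r.num : ℝ) / (r.den : ℝ) := by
      exact_mod_cast (Rat.num_div_den r).symm
    rw [h3, div_mul_cancel₀ _ hden.ne', hA]
    simp
  have hBA : r.den < A := by
    have : (r.den : ℝ) < A := by rw [← hrA]; nlinarith
    exact_mod_cast this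
  refine ⟨A, r.den, hBA, ?_, ?_, ?_⟩
  · rw [← hrA]
    nlinarith
  · have h3 : (4 * (A : ℝ) ^ 2) < q * ((A : ℝ) - r.den) ^ 2 := by
      rw [← hrA]
      have h4 : q * ((r : ℝ) * r.den - r.den) ^ 2 - 4 * ((r : ℝ) * r.den) ^ 2
        = (q * ((r : ℝ) - 1) ^ 2 - 4 * (r : ℝ) ^ 2) * (r.den : ℝ) ^ 2 := by ring
      have h5 := mul_pos f1 (pow_pos hden 2)
      rw [← h4] at h5
      linarith
    rw [← Nat.cast_sub hBA.le] at h3
    exact_mod_cast h3
  · have h3 : (2 * ((K : ℝ) * A)) < q * ((A : ℝ) - r.den) := by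
      rw [← hrA]
      have h4 : q * ((r : ℝ) * r.den - r.den) - 2 * (K * ((r : ℝ) * r.den))
        = (q * ((r : ℝ) - 1) - 2 * K * (r : ℝ)) * (r.den : ℝ) := by ring
      have h5 := mul_pos f2 hden
      rw [← h4] at h5
      linarith
    rw [← Nat.cast_sub hBA.le] at h3
    exact_mod_cast h3

/-- an entire curve in a finite union of points of projective space is constant -/
theorem const_of_finite {n : ℕ} {u : ℂ → Fin n → ℂ} (hu : ∀ j, Differentiable ℂ fun z => u z j)
    (hnz : ∀ z, u z ≠ 0) {T : Finset (Fin n → ℂ)} (hT : ∀ z, ∃ t ∈ T, ∃ c : ℂ, u z = c • t) :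
    ∀ z z', ∃ c : ℂ, u z' = c • u z := by
  classical
  -- some `t` works everywhere
  have h1 : ∃ t : Fin n → ℂ, t ≠ 0 ∧ ∀ i j z, u z i * t j - u z j * t i = 0 := by
    by_contra hcon
    push Not at hcon
    have hex : ∀ t : Fin n → ℂ, ∃ f : ℂ → ℂ, Differentiable ℂ f ∧ (∃ z, f z ≠ 0) ∧
        ∀ z, (∃ c : ℂ, u z = c • t) → f z = 0 := by
      intro t
      by_cases ht : t = 0
      · refine ⟨fun _ => 1, differentiable_const _, ⟨0, one_ne_zero⟩, ?_⟩
        rintro z ⟨c, hc⟩
        rw [ht, smul_zero] at hc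
        exact absurd hc (hnz z)
      · obtain ⟨i, j, z, hz⟩ := hcon t ht
        refine ⟨fun z => u z i * t j - u z j * t i, ((hu i).mul_const _).sub ((hu j).mul_const _),
          ⟨z, hz⟩, ?_⟩
        rintro w ⟨c, hc⟩
        simp only [hc, Pi.smul_apply, smul_eq_mul]
        ring
    choose f hf hf0 hfz using hex
    have hprod : ∀ s : Finset (Fin n → ℂ), ∃ z, ∏ t ∈ s, f t z ≠ 0 := by
      intro s
      induction s using Finset.induction_on with
      | empty => exact ⟨0, by simp⟩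
      | insert t s hts ih =>
        obtain ⟨z, hz⟩ := ih
        by_contra hcon
        push Not at hcon
        have hd : Differentiable ℂ fun z => ∏ t ∈ s, f t z :=
          Differentiable.fun_finsetProd fun t _ => hf t
        rcases ent_eq_zero_or (hf t) hd (fun z => by
          have := hcon z
          rw [Finset.prod_insert hts] at this
          exact this) with h | h
        · obtain ⟨w, hw⟩ := hf0 t
          exact hw (congrFun h w)
        · exact hz (congrFun h z)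
    obtain ⟨z, hz⟩ := hprod T
    obtain ⟨t, ht, hc⟩ := hT z
    exact hz (Finset.prod_eq_zero ht (hfz t z hc))
  obtain ⟨t, ht, h2⟩ := h1
  intro z z'
  obtain ⟨i, hi⟩ := Function.ne_iff.mp (hnz z)
  have hi' : u z i ≠ 0 := hi
  have hti : t i ≠ 0 := by
    intro h0
    apply ht
    funext j
    have := h2 i j z
    rw [h0, mul_zero, sub_zero] at this
    exact (mul_eq_zero.mp this).resolve_left hi'
  refine ⟨u z' i / u z i, ?_⟩
  funext j
  have e1 := h2 i j z
  have e2 := h2 i j z'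
  rw [Pi.smul_apply, smul_eq_mul]
  field_simp
  have e3 : t i * (u z' j * u z i) = t i * (u z' i * u z j) := by
    linear_combination (-u z i) * e2 + u z' i * e1
  have := mul_left_cancel₀ hti e3
  linear_combination this

end Pool.Agent.W602.TL
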