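import Pool.Agent.W602.TL.Elim

/-!
Ramified entire curves are not contained in a line.
-/

set_option autoImplicit false

namespace Pool.Agent.W602.TL

open Filter Metric Real Set Topology Pool.Agent.H159R3.NV Pool.Agent.W602.NC MvPolynomial

/-- a curve with vanishing Wronskian lies in a line -/
theorem lin_of_not_nonlin {F : ℂ → V} (hF : Ent3 F) (h : ¬ Nonlin F) :
    ∃ L : V, L ≠ 0 ∧ ∀ z, dt L (F z) = 0 := by
  by_contra hcon
  push Not at hcon
  apply h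
  have hind : ∀ c : Fin 3 → ℂ, (∀ z, ∑ i, c i * F z i = 0) → c = 0 := by
    intro c hc
    by_contra hc0
    obtain ⟨z, hz⟩ := hcon c hc0
    apply hz
    have := hc z
    rw [Fin.sum_univ_three] at this
    exact this
  obtain ⟨z, hz⟩ := wron_ne (fun i z => F z i) (fun i => hF i) hind
  refine ⟨z, ?_⟩
  rw [Matrix.det_fin_three] at hz
  simp only [Matrix.of_apply, Fin.val_zero, Fin.val_one, Fin.val_two, iteratedDeriv_zero,
    iteratedDeriv_succ] at hz
  have e1 : ∀ j, deriv (fun z => F z j) z = dd F z j := fun j => rfl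
  have e2 : ∀ j, deriv (deriv (fun z => F z j)) z = dd (dd F) z j := fun j => rfl
  simp only [e1, e2] at hz
  intro h0
  apply hz
  rw [← h0]
  unfold det3 dt
  simp only [cr0, cr1, cr2]
  ring

/-- two proportional functions -/
theorem dep2 {f g : ℂ → ℂ} (hf : Differentiable ℂ f) (hg : Differentiable ℂ g)
    (hg0 : ∃ z, g z ≠ 0) (h : ∀ z, f z * deriv g z - deriv f z * g z = 0) :
    ∃ c : ℂ, ∀ z, f z - c * g z = 0 := by
  by_contra hcon
  push Not at hcon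
  have hind : ∀ c : Fin 2 → ℂ, (∀ z, ∑ i, c i * (![f, g] i) z = 0) → c = 0 := by
    intro c hc
    simp only [Fin.sum_univ_two, Matrix.cons_val_zero, Matrix.cons_val_one] at hc
    by_cases h0 : c 0 = 0
    · obtain ⟨z, hz⟩ := hg0
      have h1 := hc z
      rw [h0, zero_mul, zero_add] at h1
      have h2 := (mul_eq_zero.mp h1).resolve_right hz
      funext i
      fin_cases i
      · exact h0
      · exact h2
    · exfalso
      obtain ⟨z, hz⟩ := hcon (-(c 1 / c 0))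
      apply hz
      have h1 := hc z
      field_simp
      linear_combination h1
  obtain ⟨z, hz⟩ := wron_ne ![f, g] (by
    intro i
    fin_cases i
    · exact hf
    · exact hg) hind
  apply hz
  rw [Matrix.det_fin_two]
  simp only [Matrix.of_apply, Fin.val_zero, Fin.val_one, iteratedDeriv_zero, iteratedDeriv_one,
    Matrix.cons_val_zero, Matrix.cons_val_one]
  linear_combination h z

section

variable {p : ℕ} {ℓ : Fin (p + 1) → V} {c ν K : ℕ}

/-- on a line the tangent line is constant -/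
theorem Wd_line {F : ℂ → V} (hF : Ent3 F) {L : V} (hL : ∀ z, dt L (F z) = 0) {v : V}
    (z : ℂ) (x : V) : dt v L * dt x (Wd F z) = dt v (Wd F z) * dt x L := by
  have h1 : dt L (dd F z) = 0 := by
    rw [← deriv_dt hF]
    have : (fun z => dt L (F z)) = fun _ => 0 := funext hL
    rw [this]
    exact deriv_const z (0 : ℂ)
  have h2 : cr L (Wd F z) = 0 := by
    unfold Wd
    rw [cr_cr, h1, hL, zero_smul, zero_smul, sub_zero]
  have h3 := cr_pair x v (Wd F z) L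
  have h4 : cr (Wd F z) L = 0 := by rw [cr_swap, h2, neg_zero]
  rw [h4] at h3
  have h5 : dt (cr x v) (0 : V) = 0 := by simp [dt]
  rw [h5] at h3
  linear_combination -h3

/-- the pointwise estimate on a line -/
theorem pointwise_line (hA : Arr ℓ K) (hc : c ≤ ν) (hν : 1 ≤ K) {κ : ℕ}
    (hκ : κ + 2 * (K * ν) = (p + 1) * c) {L : V} (hLi : ∀ i, cr L (ℓ i) ≠ 0) (v : V)
    (hv : dt v L ≠ 0) :
    ∃ C : ℝ, 1 ≤ C ∧ ∀ F : ℂ → V, Ent3 F → (∀ z, dt L (F z) = 0) →
      ∀ z ε, 0 < ε → ε ≤ 1 → GoodAt (UF ℓ F) z ε →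
      ‖dt v (Wd F z) ^ (K * ν)‖ * sup (UF ℓ F) z ^ κ
        ≤ C * (1 / ε) ^ (K * ν) * ∏ i, ‖UF ℓ F i z‖ ^ c := by
  classical
  set D : Fin (p + 1) × Fin (p + 1) → ℝ := fun t =>
    (‖dt v L‖ + ∑ l, (nm (cr (ℓ t.2) L) + nm (cr L (ℓ t.1))) * nm (ℓ l))
      / ‖det3 L (ℓ t.1) (ℓ t.2)‖ with hD
  have hn := nm_nonneg
  have hS0 : ∀ i k, 0 ≤ ∑ l, (nm (cr (ℓ k) L) + nm (cr L (ℓ i))) * nm (ℓ l) := fun i k =>
    Finset.sum_nonneg fun l _ => mul_nonneg (add_nonneg (hn _) (hn _)) (hn _)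
  have hD0 : ∀ t, 0 ≤ D t := by
    intro t
    have := hS0 t.1 t.2
    simp only [hD]
    positivity
  set C0 : ℝ := 1 + ∑ t, D t with hC0
  have hC1 : 1 ≤ C0 := by
    have : 0 ≤ ∑ t, D t := Finset.sum_nonneg fun t _ => hD0 t
    linarith
  have hDC : ∀ i k, det3 L (ℓ i) (ℓ k) ≠ 0 →
      ‖dt v L‖ ≤ C0 * ‖det3 L (ℓ i) (ℓ k)‖ ∧
      ∀ l, (nm (cr (ℓ k) L) + nm (cr L (ℓ i))) * nm (ℓ l) ≤ C0 * ‖det3 L (ℓ i) (ℓ k)‖ := by
    intro i k hd
    have hdp : 0 < ‖det3 L (ℓ i) (ℓ k)‖ := norm_pos_iff.mpr hd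
    have h1 : D (i, k) ≤ C0 := by
      have := Finset.single_le_sum (f := D) (fun t _ => hD0 t) (Finset.mem_univ (i, k))
      linarith
    simp only [hD] at h1
    rw [div_le_iff₀ hdp] at h1
    have h2 := hS0 i k
    refine ⟨by linarith, fun l => ?_⟩
    have h3 := Finset.single_le_sum
      (f := fun l => (nm (cr (ℓ k) L) + nm (cr L (ℓ i))) * nm (ℓ l))
      (fun l _ => mul_nonneg (add_nonneg (hn _) (hn _)) (hn _)) (Finset.mem_univ l)
    have h4 := norm_nonneg (dt v L)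
    linarith
  set C3 : ℝ := C0 * Real.exp 1 with hC3
  have hC31 : 1 ≤ C3 := by
    have h1 : (1 : ℝ) ≤ Real.exp 1 := Real.one_le_exp (by norm_num)
    calc (1 : ℝ) = 1 * 1 := by ring
      _ ≤ C0 * Real.exp 1 := by gcongr
  refine ⟨C3 ^ (K * ν) * C0 ^ (c * (p + 1)), ?_, ?_⟩
  · calc (1 : ℝ) = 1 * 1 := by ring
      _ ≤ _ := by
        gcongr
        · exact one_le_pow₀ hC31
        · exact one_le_pow₀ hC1
  intro F hF hL z ε hε hε1 hg
  set U := UF ℓ F with hU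
  set u : Fin (p + 1) → ℝ := fun i => ‖U i z‖ with hu
  have hne : ∀ i, U i z ≠ 0 := fun i => hg.1 i z (mem_closedBall_self hε.le)
  have hup : ∀ i, 0 < u i := fun i => norm_pos_iff.mpr (hne i)
  set m : ℝ := sup U z with hm
  have hum : ∀ i, u i ≤ m := fun i => le_sup U z i
  have hm0 : 0 < m := sup_pos (hne 0)
  obtain ⟨i0, _, hmin⟩ := Finset.exists_min_image Finset.univ u ⟨0, Finset.mem_univ _⟩
  set T : Finset (Fin (p + 1)) := Finset.univ.filter fun i => dt (ℓ i) (cr L (ℓ i0)) = 0 with hT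
  have hTK : T.card ≤ K := hA.conc _ (hLi i0)
  have hi0T : i0 ∈ T := by
    rw [hT, Finset.mem_filter]
    exact ⟨Finset.mem_univ _, dt_cr_right _ _⟩
  have hTp : T.card ≤ p + 1 := by
    have := Finset.card_le_univ T
    rwa [Fintype.card_fin] at this
  have hT1 : 1 ≤ T.card := Finset.card_pos.mpr ⟨i0, hi0T⟩
  have hdet : ∀ i, i ∉ T → det3 L (ℓ i0) (ℓ i) ≠ 0 := by
    intro i hi h0
    apply hi
    rw [hT, Finset.mem_filter]
    refine ⟨Finset.mem_univ _, ?_⟩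
    rw [← det_cyc] at h0
    exact h0
  have hbig : ∀ i, i ∉ T → m ≤ C0 * u i := by
    intro i hi
    have hd := hdet i hi
    have hdp : 0 < ‖det3 L (ℓ i0) (ℓ i)‖ := norm_pos_iff.mpr hd
    obtain ⟨l, hl⟩ := sup_attained U z
    have h1 := expand L (ℓ i0) (ℓ i) (F z) (ℓ l)
    rw [dt_comm (F z) L, hL, zero_mul, zero_add] at h1
    have h2 : ‖det3 L (ℓ i0) (ℓ i)‖ * m ≤ (nm (cr (ℓ i) L) + nm (cr L (ℓ i0))) * nm (ℓ l) * u i := by
      have h3 : m = ‖dt (F z) (ℓ l)‖ := by rw [hm, hl, dt_comm]; rfl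
      rw [h3, ← norm_mul, h1]
      have h4 : ‖dt (F z) (ℓ i0)‖ ≤ u i := by
        rw [dt_comm]
        exact hmin i (Finset.mem_univ _)
      have h5 : ‖dt (F z) (ℓ i)‖ = u i := by rw [dt_comm]; rfl
      calc _ ≤ ‖dt (F z) (ℓ i0)‖ * ‖dt (cr (ℓ i) L) (ℓ l)‖
            + ‖dt (F z) (ℓ i)‖ * ‖dt (cr L (ℓ i0)) (ℓ l)‖ := by
            rw [← norm_mul, ← norm_mul]
            exact norm_add_le _ _
        _ ≤ u i * (nm (cr (ℓ i) L) * nm (ℓ l)) + u i * (nm (cr L (ℓ i0)) * nm (ℓ l)) := by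
            rw [h5]
            have := (hup i).le
            have d1 := dt_le (cr (ℓ i) L) (ℓ l)
            have d2 := dt_le (cr L (ℓ i0)) (ℓ l)
            gcongr
        _ = _ := by ring
    have h6 : ‖det3 L (ℓ i0) (ℓ i)‖ * m ≤ ‖det3 L (ℓ i0) (ℓ i)‖ * (C0 * u i) := by
      refine h2.trans ?_
      have := mul_le_mul_of_nonneg_right ((hDC i0 i hd).2 l) (hup i).le
      linarith
    exact le_of_mul_le_mul_left h6 hdp
  obtain ⟨k, hk⟩ : ∃ k, k ∉ T := by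
    by_contra hcon
    push Not at hcon
    have : T = Finset.univ := Finset.eq_univ_iff_forall.mpr hcon
    rw [this, Finset.card_univ, Fintype.card_fin] at hTK
    have := hA.hK
    omega
  have hd := hdet k hk
  have hdp : 0 < ‖det3 L (ℓ i0) (ℓ k)‖ := norm_pos_iff.mpr hd
  have hw : ‖dt v (Wd F z)‖ ≤ C3 * (1 / ε) * (u i0 * m) := by
    have h1 := Wd_line hF hL (v := v) z (cr (ℓ i0) (ℓ k))
    have h2 : dt (cr (ℓ i0) (ℓ k)) L = det3 L (ℓ i0) (ℓ k) := dt_comm _ _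
    rw [h2] at h1
    have h3 := pair_le ℓ hF hε hg i0 k
    have h4 : ‖dt v (Wd F z)‖ * ‖det3 L (ℓ i0) (ℓ k)‖
        ≤ (C3 * (1 / ε) * (u i0 * m)) * ‖det3 L (ℓ i0) (ℓ k)‖ := by
      rw [← norm_mul, ← h1, norm_mul]
      have hE : 0 < Real.exp 1 * (1 / ε) := by positivity
      calc ‖dt v L‖ * ‖dt (cr (ℓ i0) (ℓ k)) (Wd F z)‖
          ≤ (C0 * ‖det3 L (ℓ i0) (ℓ k)‖) * (Real.exp 1 * (1 / ε) * (u i0 * m)) := by
            apply mul_le_mul (hDC i0 k hd).1 _ (norm_nonneg _) (by positivity)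
            exact h3.trans (mul_le_mul_of_nonneg_left
              (mul_le_mul_of_nonneg_left (hum k) (hup i0).le) hE.le)
        _ = _ := by rw [hC3]; ring
    exact le_of_mul_le_mul_right h4 hdp
  have h6 := real_ineq (hup i0).le le_rfl (hum i0) (c := c) (ν := ν) (d := K * ν) (t := T.card)
    (q := p + 1) (κ := κ) hc (Nat.le_mul_of_pos_left _ hν) hT1 hTp
    ((Nat.mul_le_mul hc hTK).trans (by rw [mul_comm])) hκ
  have h7 := prod_lower u hup hi0T (i1 := i0) (fun i _ => hmin i (Finset.mem_univ _)) hC1 hm0.le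
    hbig c
  have hprod : 0 ≤ ∏ i, u i ^ c := Finset.prod_nonneg fun i _ => pow_nonneg (hup i).le c
  have hνK : ν ≤ K * ν := Nat.le_mul_of_pos_left _ hν
  calc ‖dt v (Wd F z) ^ (K * ν)‖ * m ^ κ
      ≤ (C3 * (1 / ε) * (u i0 * m)) ^ (K * ν) * m ^ κ := by
        rw [norm_pow]
        gcongr
    _ = (C3 * (1 / ε)) ^ (K * ν) * (u i0 ^ (K * ν - ν) * u i0 ^ ν * m ^ (K * ν + κ)) := by
        rw [← pow_add, Nat.sub_add_cancel hνK, pow_add m]
        ring
    _ ≤ (C3 * (1 / ε)) ^ (K * ν) * (C0 ^ (c * (p + 1)) * ∏ i, u i ^ c) := by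
        apply mul_le_mul_of_nonneg_left (h6.trans h7)
        positivity
    _ = _ := by rw [mul_pow]; ring

/-- the order of the tangent line on a line -/
theorem line_order {F : ℂ → V} (hF : Ent3 F) {L : V} (hL : ∀ z, dt L (F z) = 0) {v a : V}
    (ha : cr L a ≠ 0) {n : ℕ} {x : ℂ}
    (hn : (n : ℕ∞) ≤ analyticOrderAt (fun z => dt a (F z)) x) :
    ((n - 1 : ℕ) : ℕ∞) ≤ analyticOrderAt (fun z => dt v (Wd F z)) x := by
  obtain ⟨b, hb⟩ : ∃ b, dt b (cr L a) ≠ 0 := by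
    by_contra hcon
    push Not at hcon
    exact ha (eq_zero_of_dt hcon)
  have h1 := pair_order hF hn b
  have hb' : dt (cr a b) L ≠ 0 := by
    have : dt (cr a b) L = det3 b L a := by
      rw [det_cyc, dt_comm]; rfl
    rw [this]
    exact hb
  have e : (fun z => dt v (Wd F z)) = fun z => (dt (cr a b) L)⁻¹ * dt v L
      * dt (cr a b) (Wd F z) := by
    funext z
    have h2 := Wd_line hF hL (v := v) z (cr a b)
    rw [mul_assoc, h2]
    field_simp
  rw [e]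
  exact ord_const_mul_ge ((hF.Wd.dt _).analyticAt x) h1 _

/-- ramified curves are not contained in a line -/
theorem RCurve.nonlin (hA : Arr ℓ K) (hcν : c ≤ ν) (hK : 1 ≤ K)
    (h2 : 2 * (K * ν) < (p + 1) * c) {F : ℂ → V} (hF : RCurve ℓ c ν K F) (hnc : NonConst F) :
    Nonlin F := by
  by_contra hcon
  obtain ⟨L, hL0, hL⟩ := lin_of_not_nonlin hF.ent hcon
  have hLi : ∀ i, cr L (ℓ i) ≠ 0 := by
    intro i h0
    obtain ⟨z, hz⟩ := hF.ne i
    apply hz
    obtain ⟨v, hv⟩ : ∃ v, dt v L ≠ 0 := by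
      by_contra hcon
      push Not at hcon
      exact hL0 (eq_zero_of_dt hcon)
    have h1 := cr_cr v L (ℓ i)
    rw [h0] at h1
    have h3 : cr v (0 : V) = 0 := by apply ext3 <;> simp
    rw [h3] at h1
    have h4 : dt v L • ℓ i = dt v (ℓ i) • L := (sub_eq_zero.mp h1.symm).symm
    have h5 : dt v L * dt (ℓ i) (F z) = 0 := by
      rw [← dt_smul_left, h4, dt_smul_left, hL, mul_zero]
    exact (mul_eq_zero.mp h5).resolve_left hv
  obtain ⟨v, hv⟩ : ∃ v, dt v L ≠ 0 := by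
    by_contra hcon
    push Not at hcon
    exact hL0 (eq_zero_of_dt hcon)
  obtain ⟨κ, hκ0, hκ⟩ : ∃ κ, 0 < κ ∧ κ + 2 * (K * ν) = (p + 1) * c :=
    ⟨(p + 1) * c - 2 * (K * ν), by omega, by omega⟩
  obtain ⟨C, hC1, hC⟩ := pointwise_line hA hcν hK hκ hLi v hv
  obtain ⟨j1, hj1⟩ := exists_ratio hA hF.nz hnc
  have hPd : ∀ F : ℂ → V, Ent3 F → Differentiable ℂ fun z => dt v (Wd F z) ^ (K * ν) :=
    fun F hF => (hF.Wd.dt v).pow _
  have hPne : ∃ z, dt v (Wd F z) ^ (K * ν) ≠ 0 := by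
    by_contra hcon
    push Not at hcon
    have h0 : ∀ z, dt v (Wd F z) = 0 := fun z => eq_zero_of_pow_eq_zero (hcon z)
    have h1 : ∀ z, dt (cr (ℓ j1) (ℓ 0)) (Wd F z) = 0 := by
      intro z
      have := Wd_line hF.ent hL (v := v) z (cr (ℓ j1) (ℓ 0))
      rw [h0, zero_mul] at this
      exact (mul_eq_zero.mp this).resolve_left hv
    obtain ⟨c', hc'⟩ := dep2 (UF_diff ℓ hF.ent j1) (UF_diff ℓ hF.ent 0) (hF.ne 0) (by
      intro z
      have h3 := h1 z
      rw [Wd_pair, ← deriv_dt hF.ent, ← deriv_dt hF.ent] at h3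
      exact h3)
    obtain ⟨z, hz⟩ := hj1 c'
    exact hz (hc' z)
  refine contra (UF ℓ F) (UF_diff ℓ hF.ent) hF.ne j1 hj1 (hPd F hF.ent) hPne ?_
  intro z0 h0 hP
  have hF' := hF.comp z0
  have hL' : ∀ z, dt L (F (ex z0 z)) = 0 := fun z => hL _
  refine circle hκ0 hC1 (UF_diff ℓ hF'.ent) h0 (hPd _ hF'.ent) ?_ ?_
    (fun w ε hε hε1 hg => hC _ hF'.ent hL' w ε hε hε1 hg)
  · have e1 : dt v (Wd (fun z => F (ex z0 z)) 0) = deriv (ex z0) 0 * dt v (Wd F (ex z0 0)) := by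
      rw [Wd_comp hF.ent (ex_diff z0), dt_smul]
    rw [e1, ex_deriv, mul_pow]
    exact mul_ne_zero (pow_ne_zero _ (ex_ne _ _)) hP
  · intro z
    refine (le_of_eq (prod_order hF'.ent hF'.ne c z)).trans ?_
    rcases hF'.ram z with ha | ⟨i0, r, h1, _, h3⟩
    · rw [Finset.sum_eq_zero fun i _ => ha i]
      simp
    · simp only at h1 h3
      have ho := (ord_fin (UF_diff ℓ hF'.ent i0) (hF'.ne i0) z).ge
      have h4 := line_order hF'.ent hL' (v := v) (hLi i0) ho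
      have e2 : (fun z => dt v (Wd (fun z => F (ex z0 z)) z) ^ (K * ν))
          = (fun z => dt v (Wd (fun z => F (ex z0 z)) z)) ^ (K * ν) := rfl
      rw [e2, analyticOrderAt_pow ((hF'.ent.Wd.dt v).analyticAt z)]
      have h5 : c * ∑ i, (analyticOrderAt (UF ℓ (fun z => F (ex z0 z)) i) z).toNat
          ≤ K * ν * ((analyticOrderAt (UF ℓ (fun z => F (ex z0 z)) i0) z).toNat - 1) := by
        refine h3.trans ?_
        set A := (analyticOrderAt (UF ℓ (fun z => F (ex z0 z)) i0) z).toNat - 1 with hAd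
        have hr : r ≤ A := by omega
        obtain ⟨k, rfl⟩ : ∃ k, K = k + 1 := ⟨K - 1, by omega⟩
        simp only [Nat.add_sub_cancel]
        calc ν * A + k * ν * r ≤ ν * A + k * ν * A :=
              Nat.add_le_add_left (Nat.mul_le_mul_left _ hr) _
          _ = (k + 1) * ν * A := by ring
      calc ((c * ∑ i, (analyticOrderAt (UF ℓ (fun z => F (ex z0 z)) i) z).toNat : ℕ) : ℕ∞)
          ≤ ((K * ν * ((analyticOrderAt (UF ℓ (fun z => F (ex z0 z)) i0) z).toNat - 1) : ℕ) : ℕ∞) := by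
            exact_mod_cast h5
        _ = (K * ν) • (((analyticOrderAt (UF ℓ (fun z => F (ex z0 z)) i0) z).toNat - 1 : ℕ) : ℕ∞) := by
            rw [nsmul_eq_mul]
            push_cast
            rfl
        _ ≤ _ := nsmul_le_nsmul_right h4 _

/-- The core theorem: all nonconstant ramified entire curves lie in a fixed algebraic curve. -/
theorem core (hA : Arr ℓ K) (hc : 1 ≤ c) (hcν : c ≤ ν) (hK : 1 ≤ K)
    (h1 : 4 * ν ^ 2 < (p + 1) * c ^ 2) (h2 : 2 * (K * ν) < (p + 1) * c) :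
    ∃ (R : TP) (e : ℕ), R.IsHomogeneous e ∧ R ≠ 0 ∧
      ∀ F, RCurve ℓ c ν K F → NonConst F → ∀ z, eval (F z) R = 0 := by
  obtain ⟨G, d, hG, hG0, hGF⟩ := diffeq hA hc hcν hK h1 h2
  obtain ⟨R, e, hR, hR0, hRF⟩ := elim d G hG hG0
  exact ⟨R, e, hR, hR0, fun F hF hnc z =>
    hRF F hF.ent (hF.nonlin hA hcν hK h2 hnc) (hGF F hF hnc) z⟩

end

end Pool.Agent.W602.TL
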