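import Pool.Agent.W602.NC.Final

/-!
A general form of the final step: a bound for the means on good circles is impossible for the
pull back by the exponential function.
-/

set_option autoImplicit false

namespace Pool.Agent.W602.TL

open Filter Metric Real Set Topology Pool.Agent.H159R3.NV Pool.Agent.W602.NC

variable {p : ℕ}

/-- the functions `U i` do not vanish near `z` and their ratios oscillate little -/
def GoodAt (U : Fin (p + 1) → ℂ → ℂ) (z : ℂ) (ε : ℝ) : Prop :=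
  (∀ i, ∀ w ∈ closedBall z ε, U i w ≠ 0) ∧
    ∀ i j, ∀ w ∈ closedBall z ε, ‖U j w / U i w‖ ≤ Real.exp 1 * ‖U j z / U i z‖

theorem sup_pos {U : Fin (p + 1) → ℂ → ℂ} {z : ℂ} (h : U 0 z ≠ 0) : 0 < sup U z :=
  (norm_pos_iff.mpr h).trans_le (le_sup U z 0)

/-- from a pointwise bound to a bound for the mean -/
theorem circle {c d κ : ℕ} (hκ : 0 < κ) {C : ℝ} (hC : 1 ≤ C) {U : Fin (p + 1) → ℂ → ℂ}
    (hU : ∀ i, Differentiable ℂ (U i)) (hU0 : ∀ i, U i 0 ≠ 0) {P : ℂ → ℂ}
    (hP : Differentiable ℂ P) (hP0 : P 0 ≠ 0)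
    (hord : ∀ z, analyticOrderAt (fun z => ∏ i, U i z ^ c) z ≤ analyticOrderAt P z)
    (hpt : ∀ z ε, 0 < ε → ε ≤ 1 → GoodAt U z ε →
      ‖P z‖ * sup U z ^ κ ≤ C * (1 / ε) ^ d * ∏ i, ‖U i z‖ ^ c) :
    ∃ A B : ℝ, 0 ≤ A ∧ 0 ≤ B ∧ ∀ s ε : ℝ, 0 < s → 0 < ε → ε ≤ 1 →
      (∀ z, ‖z‖ = s → GoodAt U z ε) → tau U s ≤ A + B * Real.log (1 / ε) := by
  set Q : ℂ → ℂ := fun z => ∏ i, U i z ^ c with hQdef
  have hQ : Differentiable ℂ Q := Differentiable.fun_finsetProd fun i _ => (hU i).pow c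
  have hQ0 : Q 0 ≠ 0 := Finset.prod_ne_zero_iff.mpr fun i _ => pow_ne_zero _ (hU0 i)
  refine ⟨Real.log C + |Real.log ‖P 0 / Q 0‖|, d, ?_, Nat.cast_nonneg _, ?_⟩
  · have := Real.log_nonneg hC
    positivity
  intro s ε hs hε hε1 hgood
  have hne : ∀ z, ‖z‖ = s → ∀ i, U i z ≠ 0 :=
    fun z hz i => (hgood z hz).1 i z (mem_closedBall_self hε.le)
  have hlogε : 0 ≤ Real.log (1 / ε) := Real.log_nonneg (by rw [le_div_iff₀ hε]; linarith)
  -- Jensen
  have h1 : Real.log ‖P 0 / Q 0‖ ≤ L P s - L Q s := by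
    have h2 := jensen_ge (f := fun z => P z / Q z) hs (quot_mero hQ hP)
      (fun z _ => quot_order (hP.analyticAt z) (hQ.analyticAt z) (finite_order hQ hQ0 z) (hord z))
      ((hP.analyticAt 0).div (hQ.analyticAt 0) hQ0) (div_ne_zero hP0 hQ0)
    rwa [L_quot hQ hP (x := 0) (y := 0) hQ0 hP0 hs.ne'] at h2
  have hLQ : L Q s = c * ∑ i, L (U i) s := by
    have e1 := L_prod Finset.univ (fun i z => U i z ^ c) (fun i => (hU i).pow c)
      (fun i => pow_ne_zero _ (hU0 i)) hs.ne'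
    have e2 : L Q s = ∑ i, L (fun z => U i z ^ c) s := e1
    rw [e2, Finset.mul_sum]
    exact Finset.sum_congr rfl fun i _ => L_pow c s
  -- the upper bound
  have hGint : CircleIntegrable (fun z => Real.log (sup U z)) 0 s :=
    tau_int hU hs fun z hz => ⟨0, hne z hz 0⟩
  have hsumint : CircleIntegrable (fun z => ∑ i, Real.log ‖U i z‖) 0 s :=
    CircleIntegrable.fun_sum _ (fun i _ => ci_log (mero_of_diff (hU i)) s)
  have hsumint' : CircleIntegrable (fun z => (c : ℝ) * ∑ i, Real.log ‖U i z‖) 0 s :=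
    hsumint.const_fun_smul (a := (c : ℝ))
  have hGint' : CircleIntegrable (fun z => (κ : ℝ) * Real.log (sup U z)) 0 s :=
    hGint.const_fun_smul (a := (κ : ℝ))
  have i3 : CircleIntegrable (fun z => (Real.log C + d * Real.log (1 / ε))
      + (c : ℝ) * ∑ i, Real.log ‖U i z‖) 0 s := (circleIntegrable_const _ _ _).add hsumint'
  have e1 : (Real.log C + d * Real.log (1 / ε)) + c * ∑ i, L (U i) s - κ * tau U s
      = Real.circleAverage (fun z => ((Real.log C + d * Real.log (1 / ε))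
        + (c : ℝ) * ∑ i, Real.log ‖U i z‖) - (κ : ℝ) * Real.log (sup U z)) 0 s := by
    rw [Real.circleAverage_fun_sub i3 hGint', Real.circleAverage_fun_add
      (circleIntegrable_const _ _ _) hsumint', Real.circleAverage_const]
    have e2 : Real.circleAverage (fun z => (c : ℝ) * ∑ i, Real.log ‖U i z‖) 0 s
        = c * ∑ i, L (U i) s := by
      have e3 := Real.circleAverage_fun_smul (a := (c : ℝ))
        (f := fun z => ∑ i, Real.log ‖U i z‖) (c := (0 : ℂ)) (R := s)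
      simp only [smul_eq_mul] at e3
      rw [e3, Real.circleAverage_fun_sum (fun i _ => ci_log (mero_of_diff (hU i)) s)]
      rfl
    have e4 : Real.circleAverage (fun z => (κ : ℝ) * Real.log (sup U z)) 0 s = κ * tau U s := by
      have e3 := Real.circleAverage_fun_smul (a := (κ : ℝ))
        (f := fun z => Real.log (sup U z)) (c := (0 : ℂ)) (R := s)
      simp only [smul_eq_mul] at e3
      rw [e3]
      rfl
    rw [e2, e4]
  have h2 : L P s ≤ (Real.log C + d * Real.log (1 / ε)) + c * ∑ i, L (U i) s - κ * tau U s := by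
    rw [e1]
    apply avg_le_cod (ci_log (mero_of_diff hP) s) (i3.sub hGint') hs.ne'
    filter_upwards [ne_cod hP hP0 s, self_mem_codiscreteWithin _] with z hz hzs
    have hz' := sph_norm hs hzs
    have h3 := hpt z ε hε hε1 (hgood z hz')
    have hsp : 0 < sup U z := sup_pos (hne z hz' 0)
    have hPp : 0 < ‖P z‖ := norm_pos_iff.mpr hz
    have hprod : (∏ i, ‖U i z‖ ^ c) ≠ 0 :=
      Finset.prod_ne_zero_iff.mpr fun i _ => pow_ne_zero _ (norm_ne_zero_iff.mpr (hne z hz' i))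
    have hCe : C * (1 / ε) ^ d ≠ 0 := mul_ne_zero (by linarith) (pow_ne_zero _ (by positivity))
    have h4 := Real.log_le_log (mul_pos hPp (pow_pos hsp κ)) h3
    rw [Real.log_mul hPp.ne' (pow_pos hsp κ).ne', Real.log_mul hCe hprod,
      Real.log_mul (by linarith) (pow_ne_zero _ (by positivity)), Real.log_pow, Real.log_pow,
      Real.log_prod (fun i _ => pow_ne_zero _ (norm_ne_zero_iff.mpr (hne z hz' i)))] at h4
    simp only [Real.log_pow] at h4
    rw [← Finset.mul_sum] at h4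
    change Real.log ‖P z‖ ≤ ((Real.log C + d * Real.log (1 / ε))
        + (c : ℝ) * ∑ i, Real.log ‖U i z‖) - (κ : ℝ) * Real.log (sup U z)
    linarith
  have hκ1 : (1 : ℝ) ≤ κ := by exact_mod_cast hκ
  have h5 : κ * tau U s ≤ (Real.log C + |Real.log ‖P 0 / Q 0‖|) + d * Real.log (1 / ε) := by
    rw [hLQ] at h1
    have := neg_abs_le (Real.log ‖P 0 / Q 0‖)
    linarith
  have hX : 0 ≤ (Real.log C + |Real.log ‖P 0 / Q 0‖|) + d * Real.log (1 / ε) := by
    have := Real.log_nonneg hC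
    positivity
  by_cases ht : 0 ≤ tau U s
  · nlinarith
  · push Not at ht
    linarith

/-- logarithmic growth -/
theorem log_growth {g : Fin (p + 1) → ℂ → ℂ} (hg : ∀ i, Differentiable ℂ (g i))
    (hg0 : ∀ i, g i 0 ≠ 0)
    (hAB : ∃ A B : ℝ, 0 ≤ A ∧ 0 ≤ B ∧ ∀ s ε : ℝ, 0 < s → 0 < ε → ε ≤ 1 →
      (∀ z, ‖z‖ = s → GoodAt g z ε) → tau g s ≤ A + B * Real.log (1 / ε)) :
    ∃ Λ K1 K2 : ℝ, Base g Λ ∧ 0 ≤ K2 ∧ ∀ r, 1 ≤ r → SS g Λ r ≤ K1 + K2 * Real.log (r + 3) := by
  set Λ : ℝ := ∑ j, |Real.log ‖g j 0‖| with hΛdef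
  have hΛ : ∀ j, |Real.log ‖g j 0‖| ≤ Λ := fun j =>
    Finset.single_le_sum (f := fun j => |Real.log ‖g j 0‖|) (fun i _ => abs_nonneg _)
      (Finset.mem_univ j)
  have hΛ0 : 0 ≤ Λ := Finset.sum_nonneg fun i _ => abs_nonneg _
  have hB : Base g Λ := ⟨hg, hg0, hΛ0, hΛ⟩
  obtain ⟨A0, B, hA0, hB0, hAB0⟩ := hAB
  set A : ℝ := A0 + Λ with hAdef
  have hA : 0 ≤ A := by positivity
  refine ⟨Λ, 1 + 2 * ((p + 1) * (A + B * Real.log 2)) + 2 * ((p + 1) * B) * 7
    + 576 * ((p + 1) * B) ^ 2, 2 * ((p + 1) * B) * 3, hB, by positivity, ?_⟩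
  intro r0 hr0
  have hlog2 : 0 ≤ Real.log 2 := Real.log_nonneg (by norm_num)
  have hrec : ∀ r δ, r0 ≤ r → 0 < δ → δ ≤ 1 → r + 4 * δ ≤ r0 + 3 →
      SS g Λ r ≤ (p + 1) * (A + B * Real.log 2) + (p + 1) * B * Real.log
        (1000 * (r + 4 * δ) ^ 3 * (SS g Λ (r + 4 * δ) + 1) ^ 2 / δ ^ 4) := by
    intro r δ h1 h2 h3 _
    have hr1 : 1 ≤ r := hr0.trans h1
    obtain ⟨s, ε, hrs, _, hε, hε1, hεX, h0, hb⟩ := hB.good hr1 h2 h3
    have hs : 0 < s := by linarith
    have hne : ∀ z, ‖z‖ = s → ∀ i, g i z ≠ 0 :=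
      fun z hz i => h0 z hz i z (mem_closedBall_self hε.le)
    have h4 := hAB0 s ε hs hε hε1 fun z hz => ⟨h0 z hz, hb z hz⟩
    set X : ℝ := 1000 * (r + 4 * δ) ^ 3 * (SS g Λ (r + 4 * δ) + 1) ^ 2 / δ ^ 4 with hX
    have hSnn := hB.SS_nonneg (R := r + 4 * δ) (by linarith)
    have hXpos : 0 < X := by positivity
    have h5 : Real.log (1 / ε) ≤ Real.log 2 + Real.log X := by
      rw [← Real.log_mul (by norm_num) hXpos.ne']
      exact Real.log_le_log (by positivity) hεX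
    have h6 : SS g Λ s ≤ (p + 1) * (tau g s + Λ) := by
      unfold SS
      calc ∑ j, (T2 (g 0) (g j) s + Λ) ≤ ∑ _j : Fin (p + 1), (tau g s + Λ) :=
            Finset.sum_le_sum fun j _ => by linarith [T2_le_tau hg hs hne j]
        _ = (p + 1) * (tau g s + Λ) := by simp; ring
    have h7 := hB.SS_mono (by linarith : 0 < r) hrs
    have h8 : B * Real.log (1 / ε) ≤ B * (Real.log 2 + Real.log X) :=
      mul_le_mul_of_nonneg_left h5 hB0
    have h9 : (p + 1) * (tau g s + Λ) ≤ (p + 1) * (A + B * (Real.log 2 + Real.log X)) :=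
      mul_le_mul_of_nonneg_left (by linarith) (by positivity)
    calc SS g Λ r ≤ (p + 1) * (A + B * (Real.log 2 + Real.log X)) := by linarith
      _ = _ := by ring
  have hgrow := growth (SS g Λ) ((p + 1) * (A + B * Real.log 2)) ((p + 1) * B) r0
    (SS g Λ (r0 + 3)) (by positivity) (by positivity) hr0
    (fun r h1 h2 => hB.SS_mono (by linarith) h2) hrec (fun r h1 => hB.SS_nonneg (by linarith))
  refine hgrow.trans (le_of_eq ?_)
  ring

/-- the exponential with base point `z0` -/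
noncomputable def ex (z0 z : ℂ) : ℂ := Complex.exp (z + z0)

theorem ex_diff (z0 : ℂ) : Differentiable ℂ (ex z0) := by
  unfold ex
  fun_prop

theorem ex_deriv (z0 z : ℂ) : deriv (ex z0) z = ex z0 z := by
  have hd : HasDerivAt (fun z : ℂ => Complex.exp (z + z0)) (Complex.exp (z + z0) * 1) z :=
    ((hasDerivAt_id z).add_const z0).cexp
  rw [mul_one] at hd
  exact hd.deriv

theorem ex_ne (z0 z : ℂ) : ex z0 z ≠ 0 := Complex.exp_ne_zero _

/-- the contradiction, by pulling back by the exponential function -/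
theorem contra (H : Fin (p + 1) → ℂ → ℂ) (hH : ∀ i, Differentiable ℂ (H i))
    (hne : ∀ i, ∃ z, H i z ≠ 0) (j1 : Fin (p + 1)) (hprop : ∀ c : ℂ, ∃ z, H j1 z - c * H 0 z ≠ 0)
    {P : ℂ → ℂ} (hP : Differentiable ℂ P) (hPne : ∃ z, P z ≠ 0)
    (hAB : ∀ z0 : ℂ, (∀ i, H i (ex z0 0) ≠ 0) → P (ex z0 0) ≠ 0 →
      ∃ A B : ℝ, 0 ≤ A ∧ 0 ≤ B ∧ ∀ s ε : ℝ, 0 < s → 0 < ε → ε ≤ 1 →
        (∀ z, ‖z‖ = s → GoodAt (fun i z => H i (ex z0 z)) z ε) →
          tau (fun i z => H i (ex z0 z)) s ≤ A + B * Real.log (1 / ε)) : False := by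
  have lift : ∀ f : ℂ → ℂ, Differentiable ℂ f → (∃ z, f z ≠ 0) → ∃ z, f (Complex.exp z) ≠ 0 := by
    intro f hf hz
    by_contra hcon
    push Not at hcon
    obtain ⟨z, hz⟩ := hz
    apply hz
    apply zero_of_punctured hf
    intro w hw
    rw [← Complex.exp_log hw]
    exact hcon _
  have hE : ∀ f : ℂ → ℂ, Differentiable ℂ f → Differentiable ℂ fun z => f (Complex.exp z) :=
    fun f hf => hf.comp Complex.differentiable_exp
  obtain ⟨z1, hz1⟩ := lift _ (hH 0) (hne 0)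
  set w0 : ℂ := Complex.exp z1 with hw0
  set c : ℂ := H j1 w0 / H 0 w0 with hc
  have hcz' : H j1 w0 - c * H 0 w0 = 0 := by rw [hc]; field_simp; ring
  have hgd : Differentiable ℂ (fun z => H j1 z - c * H 0 z) := (hH j1).sub ((hH 0).const_mul c)
  obtain ⟨zg, hzg⟩ := lift _ hgd (hprop c)
  obtain ⟨zP, hzP⟩ := lift _ hP hPne
  -- a base point where nothing vanishes
  have hev : ∀ᶠ z in 𝓝[≠] (0 : ℂ), (∀ j, H j (Complex.exp z) ≠ 0) ∧ P (Complex.exp z) ≠ 0 ∧
      (fun z => H j1 z - c * H 0 z) (Complex.exp z) ≠ 0 := by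
    refine Filter.Eventually.and ?_ (Filter.Eventually.and ?_ ?_)
    · rw [Filter.eventually_all]
      intro j
      obtain ⟨z, hz⟩ := lift _ (hH j) (hne j)
      exact ev_ne (hE _ (hH j)) hz 0
    · exact ev_ne (hE _ hP) hzP 0
    · exact ev_ne (hE _ hgd) hzg 0
  obtain ⟨z0, hz0, hz0P, hz0g⟩ := hev.exists
  have hex0 : ex z0 0 = Complex.exp z0 := by simp [ex]
  set U : Fin (p + 1) → ℂ → ℂ := fun j z => H j (ex z0 z) with hUdef
  have hU : ∀ j, Differentiable ℂ (U j) := fun j => (hH j).comp (ex_diff z0)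
  obtain ⟨Λ, K1, K2, hB, hK2, hgr⟩ := log_growth hU
    (fun i => by simp only [hUdef, hex0]; exact hz0 i)
    (hAB z0 (fun i => by rw [hex0]; exact hz0 i) (by rw [hex0]; exact hz0P))
  obtain ⟨K, hK⟩ := zeros_log' hB hgr j1 c (by simp only [hUdef, hex0]; exact hz0g)
  -- the zeros
  set ζ : ℂ := z1 - z0 with hζ
  let a : ℕ → ℂ := fun k => ζ + k * (2 * π * Complex.I)
  have hainj : Function.Injective a := by
    intro k k' h
    simp only [a] at h
    have h1 : (k : ℂ) * (2 * π * Complex.I) = k' * (2 * π * Complex.I) := add_left_cancel h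
    have h2 := mul_right_cancel₀ Complex.two_pi_I_ne_zero h1
    exact_mod_cast h2
  have hexp : ∀ k : ℕ, ex z0 (a k) = w0 := by
    intro k
    have : a k + z0 = z1 + k * (2 * π * Complex.I) := by
      simp only [a, hζ]; ring
    unfold ex
    rw [this, Complex.exp_add, Complex.exp_nat_mul_two_pi_mul_I, mul_one]
  have hp : ∀ p : ℕ, (p : ℝ) * Real.log 2 ≤ K + K2 * Real.log (2 * (‖ζ‖ + 7 * p + 1) + 3) := by
    intro p
    have h1 := hK ((List.range p).map a) (‖ζ‖ + 7 * p + 1) (by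
        have : 0 ≤ ‖ζ‖ := norm_nonneg _
        have : (0 : ℝ) ≤ p := Nat.cast_nonneg p
        linarith)
      (List.nodup_range.map hainj) (by
        intro x hx
        obtain ⟨k, hk, rfl⟩ := List.mem_map.mp hx
        have hkp : k < p := List.mem_range.mp hk
        refine ⟨?_, ?_⟩
        · simp only [hUdef, hexp]
          exact hcz'
        · simp only [a]
          refine (norm_add_le _ _).trans ?_
          have h2 : ‖(k : ℂ) * (2 * π * Complex.I)‖ = k * (2 * π) := by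
            rw [norm_mul, norm_mul, norm_mul, Complex.norm_natCast, Complex.norm_I,
              Complex.norm_real, Real.norm_of_nonneg Real.pi_pos.le]
            simp
          rw [h2]
          have h3 : (k : ℝ) ≤ p := by exact_mod_cast hkp.le
          have h4 : 2 * π ≤ 7 := by have := Real.pi_lt_d2; linarith
          have h5 : (k : ℝ) * (2 * π) ≤ p * 7 :=
            mul_le_mul h3 h4 (by positivity) (Nat.cast_nonneg p)
          linarith)
    simpa using h1
  -- contradiction for large `p`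
  set σ : ℝ := 56 * (K2 + 1) with hσ
  have hσpos : 0 < σ := by positivity
  have hlog2 : (1 : ℝ) / 2 < Real.log 2 := by
    have := Real.log_two_gt_d9; linarith
  obtain ⟨p, hpp⟩ := exists_nat_gt (4 * (K + K2 * ((2 * ‖ζ‖ + 5) / σ) + K2 * Real.log σ))
  have h1 := hp p
  have hpn : (0 : ℝ) ≤ p := Nat.cast_nonneg p
  set X : ℝ := 2 * (‖ζ‖ + 7 * p + 1) + 3 with hX
  have hXpos : 0 < X := by
    have : 0 ≤ ‖ζ‖ := norm_nonneg _
    rw [hX]; linarith
  have h2 : Real.log X ≤ X / σ + Real.log σ := by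
    have h3 : Real.log X = Real.log (X / σ) + Real.log σ := by
      rw [Real.log_div hXpos.ne' hσpos.ne']; ring
    have h4 := Real.log_le_sub_one_of_pos (div_pos hXpos hσpos)
    linarith
  have h5 : K2 * Real.log X ≤ K2 * (X / σ + Real.log σ) := mul_le_mul_of_nonneg_left h2 hK2
  have h6 : K2 * (X / σ) ≤ K2 * ((2 * ‖ζ‖ + 5) / σ) + p / 4 := by
    have e : K2 * (X / σ) = K2 * ((2 * ‖ζ‖ + 5) / σ) + (K2 / (K2 + 1)) * (p / 4) := by
      rw [hX, hσ]
      field_simp
      ring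
    rw [e]
    have : K2 / (K2 + 1) ≤ 1 := by
      rw [div_le_one (by linarith)]; linarith
    have := mul_le_mul_of_nonneg_right this (show 0 ≤ (p : ℝ) / 4 by positivity)
    linarith
  have h7 : (p : ℝ) * (1 / 2) ≤ p * Real.log 2 := mul_le_mul_of_nonneg_left hlog2.le hpn
  nlinarith

end Pool.Agent.W602.TL
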