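import Pool.Agent.W602.TL.Gen

/-!
From an algebraic differential equation for the tangent line to an algebraic equation for the
curve.
-/

set_option autoImplicit false

namespace Pool.Agent.W602.TL

open Filter Metric Real Set Topology Pool.Agent.H159R3.NV Pool.Agent.W602.NC MvPolynomial

/-- the gradient -/
noncomputable def gd (G : TP) (x : V) : V := fun j => eval x (pderiv j G)

/-- a relation between a ternary polynomial and its partial derivatives -/
theorem exists_rel (G : TP) : ∃ R : TP, R ≠ 0 ∧ ∀ x : V, eval x G = 0 → eval (gd G x) R = 0 := by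
  classical
  let ψ : TP →+* TP := (aeval (fun j => pderiv j G) : TP →ₐ[ℂ] TP).toRingHom
  have hψ : ∀ (x : V) (P : TP), eval x (ψ P) = eval (gd G x) P := by
    intro x P
    change eval x (aeval (fun j => pderiv j G) P) = _
    rw [aeval_def, eval_eval₂, eval₂_eq_eval_map]
    have h1 : (eval x).comp (algebraMap ℂ TP) = RingHom.id ℂ := by
      ext z
      simp
    rw [h1, MvPolynomial.map_id]
    rfl
  -- a nonzero relation
  have hex : ∃ Q : Polynomial TP, Q ≠ 0 ∧ Polynomial.eval₂ ψ G Q = 0 := by
    have hnot : ¬ AlgebraicIndependent ℂ (Fin.cons G (fun j => pderiv j G) : Fin 4 → TP) := by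
      intro h
      have h1 := h.cardinalMk_le_trdeg
      rw [MvPolynomial.trdeg_of_isDomain] at h1
      simp only [Cardinal.mk_fintype, Fintype.card_fin, Cardinal.lift_natCast] at h1
      have h2 : (4 : ℕ) ≤ 3 := by exact_mod_cast h1
      omega
    rw [algebraicIndependent_iff] at hnot
    push Not at hnot
    obtain ⟨P, hP, hP0⟩ := hnot
    refine ⟨finSuccEquiv ℂ 3 P, ?_, ?_⟩
    · intro h0
      apply hP0
      exact (finSuccEquiv ℂ 3).injective (by rw [h0, map_zero])
    · rw [← hP]
      have hhom : ((Polynomial.eval₂RingHom ψ G).comp (finSuccEquiv ℂ 3 : _ →+* Polynomial TP))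
          = (aeval (Fin.cons G (fun j => pderiv j G) : Fin 4 → TP)
            : MvPolynomial (Fin 4) ℂ →ₐ[ℂ] TP).toRingHom := by
        apply MvPolynomial.ringHom_ext
        · intro r
          simp only [RingHom.comp_apply, RingHom.coe_coe, Polynomial.coe_eval₂RingHom,
            AlgHom.toRingHom_eq_coe]
          have hC : finSuccEquiv ℂ 3 (C r) = Polynomial.C (C r) := by
            simp [finSuccEquiv_apply]
          rw [hC]
          simp [ψ]
        · intro j
          refine Fin.cases ?_ (fun j => ?_) j
          · simp [finSuccEquiv_X_zero]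
          · simp [finSuccEquiv_X_succ, ψ]
      exact congrArg (fun f : MvPolynomial (Fin 4) ℂ →+* TP => f P) hhom
  by_cases hG0 : G = 0
  · -- no relation is needed in this case: take the constant relation from the gradient zero
    refine ⟨X 0, X_ne_zero 0, fun x _ => ?_⟩
    rw [eval_X]
    simp [gd, hG0]
  obtain ⟨Q, ⟨hQ0, hQ⟩, hmin⟩ : ∃ Q : Polynomial TP, (Q ≠ 0 ∧ Polynomial.eval₂ ψ G Q = 0) ∧
      ∀ Q' : Polynomial TP, (Q' ≠ 0 ∧ Polynomial.eval₂ ψ G Q' = 0) → Q.natDegree ≤ Q'.natDegree := by
    let S : Set ℕ := {n | ∃ Q : Polynomial TP, (Q ≠ 0 ∧ Polynomial.eval₂ ψ G Q = 0) ∧ Q.natDegree = n}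
    have hS : S.Nonempty := by
      obtain ⟨Q, hQ⟩ := hex
      exact ⟨_, Q, hQ, rfl⟩
    obtain ⟨Q, hQ, hn⟩ := Nat.sInf_mem hS
    exact ⟨Q, hQ, fun Q' hQ' => by rw [hn]; exact Nat.sInf_le ⟨Q', hQ', rfl⟩⟩
  have hdec : Polynomial.eval₂ ψ G Q = Polynomial.eval₂ ψ G (Polynomial.divX Q) * G
      + ψ (Q.coeff 0) := by
    conv_lhs => rw [← Polynomial.divX_mul_X_add Q]
    rw [Polynomial.eval₂_add, Polynomial.eval₂_mul, Polynomial.eval₂_X, Polynomial.eval₂_C]
  refine ⟨Q.coeff 0, ?_, ?_⟩
  · intro h0
    rw [h0, map_zero, add_zero, hQ] at hdec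
    have h1 : Polynomial.eval₂ ψ G (Polynomial.divX Q) = 0 :=
      (mul_eq_zero.mp hdec.symm).resolve_right hG0
    have h2 : Polynomial.divX Q ≠ 0 := by
      intro h3
      apply hQ0
      rw [← Polynomial.divX_mul_X_add Q, h3, h0]
      simp
    have h3 := hmin _ ⟨h2, h1⟩
    have h4 : Q.natDegree ≠ 0 := by
      intro h5
      apply h2
      rw [Polynomial.eq_C_of_natDegree_eq_zero h5]
      simp
    rw [Polynomial.natDegree_divX_eq_natDegree_tsub_one] at h3
    omega
  · intro x hx
    rw [← hψ]
    have h1 := congrArg (eval x) hdec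
    rw [hQ, map_zero, map_add, map_mul, hx, mul_zero, zero_add] at h1
    exact h1.symm

/-- the chain rule -/
theorem chain {y : ℂ → V} (hy : Ent3 y) (G : TP) (z : ℂ) :
    HasDerivAt (fun z => eval (y z) G) (dt (gd G (y z)) (dd y z)) z := by
  induction G using MvPolynomial.induction_on with
  | C a =>
    simp only [eval_C]
    have : dt (gd (C a) (y z)) (dd y z) = 0 := by simp [dt, gd]
    rw [this]
    exact hasDerivAt_const z a
  | add P Q hP hQ =>
    simp only [map_add]
    have : dt (gd (P + Q) (y z)) (dd y z) = dt (gd P (y z)) (dd y z) + dt (gd Q (y z)) (dd y z) := by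
      simp only [dt, gd, map_add]
      ring
    rw [this]
    exact hP.add hQ
  | mul_X P j hP =>
    simp only [map_mul, eval_X]
    have h1 : HasDerivAt (fun z => y z j) (dd y z j) z := ((hy j) z).hasDerivAt
    have h2 := hP.mul h1
    have h3 : dt (gd (P * X j) (y z)) (dd y z)
        = dt (gd P (y z)) (dd y z) * y z j + eval (y z) P * dd y z j := by
      simp only [dt, gd, Derivation.leibniz, pderiv_X, smul_eq_mul, map_add, map_mul, eval_X]
      fin_cases j <;> simp <;> ring
    rw [h3]
    exact h2

/-- the second derivative and the tangent line -/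
theorem dd_Wd {F : ℂ → V} (hF : Ent3 F) (z : ℂ) : dd (Wd F) z = cr (F z) (dd (dd F) z) := by
  have h : ∀ i, HasDerivAt (fun z => F z i) (dd F z i) z := fun i => ((hF i) z).hasDerivAt
  have h' : ∀ i, HasDerivAt (fun z => dd F z i) (dd (dd F) z i) z :=
    fun i => ((hF.dd i) z).hasDerivAt
  apply ext3
  · have h1 := ((h 1).mul (h' 2)).sub ((h 2).mul (h' 1))
    have h2 : dd (Wd F) z 0 = _ := h1.deriv
    rw [h2, cr0]; ring
  · have h1 := ((h 2).mul (h' 0)).sub ((h 0).mul (h' 2))
    have h2 : dd (Wd F) z 1 = _ := h1.deriv
    rw [h2, cr1]; ring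
  · have h1 := ((h 0).mul (h' 1)).sub ((h 1).mul (h' 0))
    have h2 : dd (Wd F) z 2 = _ := h1.deriv
    rw [h2, cr2]; ring

/-- the curve is not contained in a line -/
def Nonlin (F : ℂ → V) : Prop := ∃ z, det3 (F z) (dd F z) (dd (dd F) z) ≠ 0

theorem det_diff {F : ℂ → V} (hF : Ent3 F) :
    Differentiable ℂ fun z => det3 (F z) (dd F z) (dd (dd F) z) := by
  have h := hF.dd.cr hF.dd.dd
  exact (((hF 0).mul (h 0)).add ((hF 1).mul (h 1))).add ((hF 2).mul (h 2))

/-- the gradient at the tangent line is proportional to the point -/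
theorem gd_par {F : ℂ → V} (hF : Ent3 F) (hl : Nonlin F) {G : TP} {d : ℕ} (hG : G.IsHomogeneous d)
    (h0 : ∀ z, eval (Wd F z) G = 0) (z : ℂ) : cr (gd G (Wd F z)) (F z) = 0 := by
  have hchain : ∀ z, dt (gd G (Wd F z)) (dd (Wd F) z) = 0 := by
    intro z
    have h1 := chain hF.Wd G z
    have h2 : (fun z => eval (Wd F z) G) = fun _ => 0 := funext h0
    rw [h2] at h1
    exact h1.unique (hasDerivAt_const z (0 : ℂ))
  have heuler : ∀ z, dt (gd G (Wd F z)) (Wd F z) = 0 := by
    intro z
    have h1 := congrArg (eval (Wd F z)) (hG.sum_X_mul_pderiv)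
    rw [map_sum, Fin.sum_univ_three] at h1
    simp only [map_mul, eval_X, nsmul_eq_mul, map_natCast, h0, mul_zero] at h1
    unfold dt gd
    linear_combination h1
  have hzero : ∀ z, det3 (F z) (dd F z) (dd (dd F) z) • cr (gd G (Wd F z)) (F z) = 0 := by
    intro z
    have h1 := cr_cr (gd G (Wd F z)) (Wd F z) (dd (Wd F) z)
    rw [hchain, heuler, zero_smul, zero_smul, sub_zero] at h1
    have h2 : cr (Wd F z) (dd (Wd F) z) = det3 (F z) (dd F z) (dd (dd F) z) • F z := by
      rw [dd_Wd hF]
      exact cr_cr_same _ _ _
    rw [h2] at h1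
    rw [← h1]
    apply ext3 <;> simp only [Pi.smul_apply, smul_eq_mul, cr0, cr1, cr2] <;> ring
  have hgd : Ent3 fun z => gd G (Wd F z) := fun j => form_diff hF.Wd
  have hcr := hgd.cr hF
  obtain ⟨z1, hz1⟩ := hl
  funext j
  rcases ent_eq_zero_or (det_diff hF) (hcr j) (fun z => by
    have := congrFun (hzero z) j
    simpa using this) with h | h
  · exact absurd (congrFun h z1) hz1
  · exact congrFun h z

/-- homogeneous components of a polynomial which vanishes on a line -/
theorem comp_zero {R : TP} {x : V} (h : ∀ t : ℂ, eval (t • x) R = 0) (k : ℕ) :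
    eval x (homogeneousComponent k R) = 0 := by
  classical
  let Q : Polynomial ℂ := ∑ i ∈ Finset.range (R.totalDegree + 1),
    Polynomial.monomial i (eval x (homogeneousComponent i R))
  have hQ : ∀ t, Q.eval t = 0 := by
    intro t
    rw [← h t]
    conv_rhs => rw [← sum_homogeneousComponent R]
    rw [map_sum, Polynomial.eval_finsetSum]
    refine Finset.sum_congr rfl fun i _ => ?_
    rw [Polynomial.eval_monomial, eval_smul_hom (homogeneousComponent_isHomogeneous i R), mul_comm]
  have hQ0 : Q = 0 := Polynomial.funext fun t => by rw [hQ t, Polynomial.eval_zero]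
  by_cases hk : k < R.totalDegree + 1
  · have h1 : Q.coeff k = eval x (homogeneousComponent k R) := by
      rw [Polynomial.finsetSum_coeff, Finset.sum_eq_single k]
      · rw [Polynomial.coeff_monomial, if_pos rfl]
      · intro i _ hi
        rw [Polynomial.coeff_monomial, if_neg hi]
      · intro hk'
        exact absurd (Finset.mem_range.mpr hk) hk'
    rw [← h1, hQ0, Polynomial.coeff_zero]
  · rw [homogeneousComponent_eq_zero k R (by omega), map_zero]

theorem gd_smul {G : TP} {d : ℕ} (hG : G.IsHomogeneous d) (t : ℂ) (x : V) :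
    gd G (t • x) = t ^ (d - 1) • gd G x := by
  funext j
  exact eval_smul_hom hG.pderiv t x

/-- elimination -/
theorem elim : ∀ (d : ℕ) (G : TP), G.IsHomogeneous d → G ≠ 0 →
    ∃ (R : TP) (e : ℕ), R.IsHomogeneous e ∧ R ≠ 0 ∧
      ∀ F, Ent3 F → Nonlin F → (∀ z, eval (Wd F z) G = 0) → ∀ z, eval (F z) R = 0 := by
  intro d
  induction d with
  | zero =>
    intro G hG hG0
    refine ⟨1, 0, isHomogeneous_one _ _, one_ne_zero, fun F hF hl h0 z => ?_⟩
    exfalso
    have h1 := (totalDegree_zero_iff_isHomogeneous _).mpr hG
    rw [totalDegree_eq_zero_iff_eq_C] at h1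
    have h2 := h0 z
    rw [h1, eval_C] at h2
    apply hG0
    rw [h1, h2, map_zero]
  | succ d ih =>
    intro G hG hG0
    obtain ⟨j, hj⟩ : ∃ j, pderiv j G ≠ 0 := by
      by_contra hcon
      push Not at hcon
      have h1 := hG.sum_X_mul_pderiv
      simp only [hcon, mul_zero, Finset.sum_const_zero] at h1
      have h2 : ((d + 1 : ℕ) : TP) * G = 0 := by rw [← nsmul_eq_mul]; exact h1.symm
      rcases mul_eq_zero.mp h2 with h3 | h3
      · have : (d + 1 : ℕ) = 0 := by exact_mod_cast h3
        omega
      · exact hG0 h3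
    have hGj : (pderiv j G).IsHomogeneous d := hG.pderiv
    rcases Nat.eq_zero_or_pos d with hd | hd
    · -- linear forms: no such curve
      subst hd
      refine ⟨1, 0, isHomogeneous_one _ _, one_ne_zero, fun F hF hl h0 z => ?_⟩
      exfalso
      have hpar := gd_par hF hl hG h0
      set g : V := gd G 0 with hg
      have hgc : ∀ x, gd G x = g := by
        intro x
        funext i
        have h1 : (pderiv i G).IsHomogeneous 0 := hG.pderiv
        rw [← totalDegree_zero_iff_isHomogeneous, totalDegree_eq_zero_iff_eq_C] at h1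
        simp only [hg, gd]
        rw [h1, eval_C, eval_C]
      have hg0 : g ≠ 0 := by
        intro h1
        apply hj
        have h2 : (pderiv j G).IsHomogeneous 0 := hG.pderiv
        rw [← totalDegree_zero_iff_isHomogeneous, totalDegree_eq_zero_iff_eq_C] at h2
        have h3 := congrFun h1 j
        simp only [hg, gd] at h3
        rw [h2, eval_C] at h3
        rw [h2]
        simp only [Pi.zero_apply] at h3
        rw [h3, map_zero]
      have h2 : ∀ z, cr g (F z) = 0 := fun z => by rw [← hgc (Wd F z)]; exact hpar z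
      -- derivatives
      have h3 : ∀ z, cr g (dd F z) = 0 := by
        intro z
        have e : ∀ v : V, ∀ w, dt (cr v g) (F w) = 0 := by
          intro v w
          have h5 : dt (cr v g) (F w) = dt v (cr g (F w)) := by
            unfold dt; simp only [cr0, cr1, cr2]; ring
          rw [h5, h2]
          simp [dt]
        have e' : ∀ v : V, dt v (cr g (dd F z)) = 0 := by
          intro v
          have h5 : dt v (cr g (dd F z)) = dt (cr v g) (dd F z) := by
            unfold dt; simp only [cr0, cr1, cr2]; ring
          rw [h5, ← deriv_dt hF]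
          have h6 : (fun z => dt (cr v g) (F z)) = fun _ => 0 := funext (e v)
          rw [h6]
          exact deriv_const z (0 : ℂ)
        exact eq_zero_of_dt e'
      obtain ⟨z1, hz1⟩ := hl
      apply hz1
      obtain ⟨v, hv⟩ : ∃ v, dt v g ≠ 0 := by
        by_contra hcon
        push Not at hcon
        exact hg0 (eq_zero_of_dt hcon)
      have key : dt v g * dt v g * det3 (F z1) (dd F z1) (dd (dd F) z1) = 0 := by
        have a1 : dt v g • F z1 = dt v (F z1) • g := by
          have h5 := cr_cr v g (F z1)
          rw [h2] at h5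
          have h6 : cr v (0 : V) = 0 := by apply ext3 <;> simp
          rw [h6] at h5
          exact (sub_eq_zero.mp h5.symm).symm
        have a2 : dt v g • dd F z1 = dt v (dd F z1) • g := by
          have h5 := cr_cr v g (dd F z1)
          rw [h3] at h5
          have h6 : cr v (0 : V) = 0 := by apply ext3 <;> simp
          rw [h6] at h5
          exact (sub_eq_zero.mp h5.symm).symm
        have e5 : dt v g * dt v g * det3 (F z1) (dd F z1) (dd (dd F) z1)
            = det3 (dt v g • F z1) (dt v g • dd F z1) (dd (dd F) z1) := by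
          unfold det3 dt
          simp only [Pi.smul_apply, smul_eq_mul, cr0, cr1, cr2]
          ring
        rw [e5, a1, a2]
        unfold det3 dt
        simp only [Pi.smul_apply, smul_eq_mul, cr0, cr1, cr2]
        ring
      rcases mul_eq_zero.mp key with h | h
      · exact absurd h (mul_ne_zero hv hv)
      · exact h
    · obtain ⟨R1, e1, hR1, hR10, hR1F⟩ := ih (pderiv j G) hGj hj
      obtain ⟨R, hR0, hR⟩ := exists_rel G
      obtain ⟨k, hk⟩ : ∃ k, homogeneousComponent k R ≠ 0 := by
        by_contra hcon
        push Not at hcon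
        apply hR0
        rw [← sum_homogeneousComponent R]
        exact Finset.sum_eq_zero fun i _ => hcon i
      set R2 : TP := homogeneousComponent k R with hR2
      have hR2h : R2.IsHomogeneous k := homogeneousComponent_isHomogeneous k R
      have hR2z : ∀ x : V, eval x G = 0 → eval (gd G x) R2 = 0 := by
        intro x hx
        apply comp_zero
        intro t
        obtain ⟨s, hs⟩ := IsAlgClosed.exists_pow_nat_eq t hd
        have h1 := hR (s • x) (by rw [eval_smul_hom hG, hx, mul_zero])
        rw [gd_smul hG] at h1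
        simp only [Nat.add_sub_cancel] at h1
        rw [hs] at h1
        exact h1
      refine ⟨R1 * R2, e1 + k, hR1.mul hR2h, mul_ne_zero hR10 hk, fun F hF hl h0 z => ?_⟩
      rw [map_mul]
      have hgj : Differentiable ℂ fun z => eval (Wd F z) (pderiv j G) := form_diff hF.Wd
      have hR2d : Differentiable ℂ fun z => eval (F z) R2 := form_diff hF
      have hpar := gd_par hF hl hG h0
      have key : ∀ z, (eval (Wd F z) (pderiv j G)) ^ k * eval (F z) R2 = 0 := by
        intro z
        have h1 : (eval (Wd F z) (pderiv j G)) • F z = (F z j) • gd G (Wd F z) := by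
          have h2 := hpar z
          have c0 := congrFun h2 0
          have c1 := congrFun h2 1
          have c2 := congrFun h2 2
          simp only [cr0, cr1, cr2, Pi.zero_apply] at c0 c1 c2
          have hj' : eval (Wd F z) (pderiv j G) = gd G (Wd F z) j := rfl
          rw [hj']
          fin_cases j
          · apply ext3 <;> simp only [Pi.smul_apply, smul_eq_mul, Fin.zero_eta] 
            · ring
            · linear_combination c2
            · linear_combination -c1
          · apply ext3 <;> simp only [Pi.smul_apply, smul_eq_mul, Fin.mk_one] 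
            · linear_combination -c2
            · ring
            · linear_combination c0
          · apply ext3 <;> simp only [Pi.smul_apply, smul_eq_mul, Fin.reduceFinMk] 
            · linear_combination c1
            · linear_combination -c0
            · ring
        rw [← eval_smul_hom hR2h, h1, eval_smul_hom hR2h, hR2z _ (h0 z), mul_zero]
      rcases ent_eq_zero_or (hgj.pow k) hR2d key with h | h
      · have h5 : ∀ z, eval (Wd F z) (pderiv j G) = 0 := by
          intro z
          have := congrFun h z
          exact eq_zero_of_pow_eq_zero this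
        rw [hR1F F hF hl h5 z, zero_mul]
      · have : eval (F z) R2 = 0 := congrFun h z
        rw [this, mul_zero]

end Pool.Agent.W602.TL
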