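import Pool.Agent.W602.TL.Order

/-!
Ramified entire curves satisfy an algebraic differential equation of the first order which does
not depend on the curve.
-/

set_option autoImplicit false

namespace Pool.Agent.W602.TL

open Filter Metric Real Set Topology Pool.Agent.H159R3.NV Pool.Agent.W602.NC MvPolynomial

variable {p : ℕ} {ℓ : Fin (p + 1) → V} {c ν K : ℕ}

/-- the curve is not constant in the projective plane -/
def NonConst (F : ℂ → V) : Prop := ∃ z z', ∀ t : ℂ, F z' ≠ t • F z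

theorem Arr.triple (hA : Arr ℓ K) (i : Fin (p + 1)) :
    ∃ j k, det3 (ℓ i) (ℓ j) (ℓ k) ≠ 0 := by
  classical
  have hp := hA.hp
  obtain ⟨j, hj⟩ : ∃ j : Fin (p + 1), i ≠ j := by
    by_cases hi : i = 0
    · exact ⟨⟨1, by omega⟩, by rw [hi]; intro h1; have := congrArg Fin.val h1; simp at this⟩
    · exact ⟨0, hi⟩
  obtain ⟨k, hk⟩ : ∃ k, dt (ℓ k) (cr (ℓ i) (ℓ j)) ≠ 0 := by
    by_contra hcon
    push Not at hcon
    have h1 := hA.conc _ (hA.dist i j hj)
    rw [Finset.filter_true_of_mem (fun k _ => hcon k), Finset.card_univ, Fintype.card_fin] at h1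
    have := hA.hK
    omega
  refine ⟨j, k, ?_⟩
  rw [← det_cyc]
  exact hk

/-- two linear forms have a nonconstant ratio along the curve -/
theorem exists_ratio (hA : Arr ℓ K) {F : ℂ → V} (hnz : ∀ z, F z ≠ 0) (hF : NonConst F) :
    ∃ j1, ∀ c : ℂ, ∃ z, UF ℓ F j1 z - c * UF ℓ F 0 z ≠ 0 := by
  by_contra hcon
  push Not at hcon
  choose c hc using hcon
  obtain ⟨j, k, hD⟩ := hA.triple 0
  have h1 : ∀ v, ∃ γ : ℂ, ∀ z, dt v (F z) = γ * UF ℓ F 0 z := by
    intro v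
    refine ⟨(det3 (ℓ 0) (ℓ j) (ℓ k))⁻¹ * (dt (cr (ℓ j) (ℓ k)) v + c j * dt (cr (ℓ k) (ℓ 0)) v
      + c k * dt (cr (ℓ 0) (ℓ j)) v), fun z => ?_⟩
    have h2 := expand (ℓ 0) (ℓ j) (ℓ k) (F z) v
    have h3 : dt (F z) (ℓ j) = c j * dt (F z) (ℓ 0) := by
      have := hc j z
      rw [sub_eq_zero] at this
      rw [dt_comm (F z) (ℓ j), dt_comm (F z) (ℓ 0)]
      exact this
    have h4 : dt (F z) (ℓ k) = c k * dt (F z) (ℓ 0) := by
      have := hc k z
      rw [sub_eq_zero] at this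
      rw [dt_comm (F z) (ℓ k), dt_comm (F z) (ℓ 0)]
      exact this
    rw [h3, h4] at h2
    have h5 : UF ℓ F 0 z = dt (F z) (ℓ 0) := dt_comm _ _
    rw [h5, dt_comm v, mul_assoc, eq_inv_mul_iff_mul_eq₀ hD, h2]
    ring
  choose γ hγ using h1
  have h2 : ∀ z, F z = UF ℓ F 0 z • fun i => γ (Pi.single i 1) := by
    intro z
    funext i
    have := hγ (Pi.single i 1) z
    rw [dt_single] at this
    rw [this, Pi.smul_apply, smul_eq_mul, mul_comm]
  have h0 : ∀ z, UF ℓ F 0 z ≠ 0 := by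
    intro z hz
    apply hnz z
    rw [h2 z, hz, zero_smul]
  obtain ⟨z, z', hzz⟩ := hF
  apply hzz (UF ℓ F 0 z' / UF ℓ F 0 z)
  rw [h2 z', h2 z, smul_smul, div_mul_cancel₀ _ (h0 z)]

theorem eval_smul_hom {G : TP} {d : ℕ} (hG : G.IsHomogeneous d) (t : ℂ) (x : V) :
    eval (t • x) G = t ^ d * eval x G := by
  rw [eval_three, eval_three, Finset.mul_sum]
  refine Finset.sum_congr rfl fun m hm => ?_
  have hd := supp_deg hG hm
  simp only [Pi.smul_apply, smul_eq_mul, mul_pow]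
  rw [← hd, pow_add, pow_add]
  ring

theorem form_diff {G : TP} {y : ℂ → V} (hy : Ent3 y) : Differentiable ℂ fun z => eval (y z) G := by
  have e : (fun z => eval (y z) G) = fun z => ∑ m ∈ G.support,
      coeff m G * (y z 0 ^ m 0 * (y z 1 ^ m 1 * y z 2 ^ m 2)) := by
    funext z
    rw [eval_three]
  rw [e]
  apply Differentiable.fun_sum
  intro m _
  exact (((hy 0).pow _).mul (((hy 1).pow _).mul ((hy 2).pow _))).const_mul _

/-- the differential equation, for a given form -/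
theorem vanish (hA : Arr ℓ K) {t d κ : ℕ} (hκ0 : 0 < κ) (hcν : c * t ≤ ν * t)
    (hd : K * (ν * t) ≤ d) (hνd : ν * t ≤ d) (hκ : κ + 2 * d = (p + 1) * (c * t))
    {b e : Fin (p + 1) → V}
    (hb : ∀ i, det3 (ℓ i) (b i) (e i) ≠ 0) {G : TP} (hG : G.IsHomogeneous d)
    (hv : ∀ i, Van (ν * t) (sub3 (ℓ i) (b i) (e i) G)) {F : ℂ → V} (hF : RCurve ℓ c ν K F)
    (hnc : NonConst F) (z : ℂ) : eval (Wd F z) G = 0 := by
  by_contra hz
  have hcK : c * t * K ≤ d := (Nat.mul_le_mul_right K hcν).trans (by rw [mul_comm]; exact hd)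
  obtain ⟨C, hC1, hC⟩ := pointwise hA hcν hνd hcK hκ hb hG hv
  obtain ⟨j1, hj1⟩ := exists_ratio hA hF.nz hnc
  refine contra (UF ℓ F) (UF_diff ℓ hF.ent) hF.ne j1 hj1 (form_diff (G := G) hF.ent.Wd) ⟨z, hz⟩ ?_
  intro z0 h0 hP
  have hF' := hF.comp z0
  have e1 : ∀ w, eval (Wd (fun z => F (ex z0 z)) w) G
      = deriv (ex z0) w ^ d * eval (Wd F (ex z0 w)) G := by
    intro w
    rw [Wd_comp hF.ent (ex_diff z0), eval_smul_hom hG]
  exact circle hκ0 hC1 (UF_diff ℓ hF'.ent) h0 (form_diff (G := G) hF'.ent.Wd)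
    (by rw [e1, ex_deriv]; exact mul_ne_zero (pow_ne_zero _ (ex_ne _ _)) hP)
    (hF'.order hA hd hb hG hv)
    (fun w ε hε hε1 hg => hC _ hF'.ent w ε hε hε1 hg)

/-- numerical conditions -/
theorem numerics {q c ν K : ℕ} (hc : 1 ≤ c) (hν : 1 ≤ ν) (h1 : 4 * ν ^ 2 < q * c ^ 2)
    (h2 : 2 * (K * ν) < q * c) :
    ∃ t d κ : ℕ, 0 < κ ∧ K * (ν * t) ≤ d ∧ κ + 2 * d = q * (c * t) ∧
      q * ((ν * t) * (ν * t + 1)) < (d + 1) * (d + 2) := by
  set t : ℕ := 4 * ν with ht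
  set d : ℕ := (q * (c * t) - 1) / 2 with hd
  have hpos : 1 ≤ q * (c * t) := by
    have hq : 1 ≤ q := by
      rcases Nat.eq_zero_or_pos q with h | h
      · rw [h] at h1; simp at h1
      · exact h
    have ht1 : 1 ≤ t := by omega
    exact Nat.one_le_iff_ne_zero.mpr (by positivity)
  have hd1 : 2 * d ≤ q * (c * t) - 1 := Nat.mul_div_le _ 2
  have hd2 : q * (c * t) ≤ 2 * d + 2 := by omega
  refine ⟨t, d, q * (c * t) - 2 * d, by omega, ?_, by omega, ?_⟩
  · have h3 : 2 * (K * (ν * t)) + t ≤ q * (c * t) := by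
      have := Nat.mul_le_mul_right t (Nat.succ_le_of_lt h2)
      calc 2 * (K * (ν * t)) + t = (2 * (K * ν)).succ * t := by
            rw [Nat.succ_eq_add_one]; ring
        _ ≤ q * c * t := this
        _ = _ := by ring
    omega
  · have hq : 1 ≤ q := by
      rcases Nat.eq_zero_or_pos q with h | h
      · rw [h] at h1; simp at h1
      · exact h
    have h4 : 4 * (q * ((ν * t) * (ν * t + 1))) < q * (c * t) * (q * (c * t) + 2) := by
      have h5 : 4 * ν * (ν * t + 1) < c * (q * (c * t) + 2) := by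
        have h6 := Nat.mul_le_mul_right t (Nat.succ_le_of_lt h1)
        have h7 : (4 * ν ^ 2).succ * t = 4 * ν ^ 2 * t + t := by rw [Nat.succ_mul]
        rw [h7] at h6
        have h8 : c * (q * (c * t) + 2) = q * c ^ 2 * t + 2 * c := by ring
        have h9 : 4 * ν * (ν * t + 1) = 4 * ν ^ 2 * t + 4 * ν := by ring
        rw [h8, h9]
        omega
      have hqt : 0 < q * t := by positivity
      calc 4 * (q * ((ν * t) * (ν * t + 1))) = (q * t) * (4 * ν * (ν * t + 1)) := by ring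
        _ < (q * t) * (c * (q * (c * t) + 2)) := Nat.mul_lt_mul_of_pos_left h5 hqt
        _ = _ := by ring
    have h10 : q * (c * t) * (q * (c * t) + 2) ≤ (2 * d + 2) * (2 * d + 2 + 2) :=
      Nat.mul_le_mul hd2 (by omega)
    have h11 : (2 * d + 2) * (2 * d + 2 + 2) = 4 * ((d + 1) * (d + 2)) := by ring
    omega

/-- the differential equation -/
theorem diffeq (hA : Arr ℓ K) (hc : 1 ≤ c) (hcν : c ≤ ν) (hK : 1 ≤ K)
    (h1 : 4 * ν ^ 2 < (p + 1) * c ^ 2) (h2 : 2 * (K * ν) < (p + 1) * c) :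
    ∃ (G : TP) (d : ℕ), G.IsHomogeneous d ∧ G ≠ 0 ∧
      ∀ F, RCurve ℓ c ν K F → NonConst F → ∀ z, eval (Wd F z) G = 0 := by
  obtain ⟨t, d, κ, hκ0, hd, hκ, hlt⟩ := numerics hc (hc.trans hcν) h1 h2
  choose b e hb using hA.triple
  obtain ⟨G, hG, hG0, hv⟩ := exists_form hlt ℓ (fun i => ℓ (b i)) (fun i => ℓ (e i))
  refine ⟨G, d, hG, hG0, fun F hF hnc z => ?_⟩
  have hνd : ν * t ≤ d := le_trans (Nat.le_mul_of_pos_left _ hK) hd
  exact vanish hA hκ0 (Nat.mul_le_mul_right t hcν) hd hνd hκ hb hG hv hF hnc z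

end Pool.Agent.W602.TL
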