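import Pool.Agent.W602.TL.Contra

/-!
Vectors with three entries, curves in the plane and their tangent lines.
-/

set_option autoImplicit false

namespace Pool.Agent.W602.TL

open Filter Metric Real Set Topology Pool.Agent.H159R3.NV Pool.Agent.W602.NC

/-- vectors with three entries -/
abbrev V : Type := Fin 3 → ℂ

/-- the standard bilinear form -/
def dt (a b : V) : ℂ := a 0 * b 0 + a 1 * b 1 + a 2 * b 2

/-- the vector product -/
def cr (a b : V) : V := ![a 1 * b 2 - a 2 * b 1, a 2 * b 0 - a 0 * b 2, a 0 * b 1 - a 1 * b 0]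

/-- the determinant of three vectors -/
def det3 (a b c : V) : ℂ := dt a (cr b c)

@[simp] theorem cr0 (a b : V) : cr a b 0 = a 1 * b 2 - a 2 * b 1 := rfl
@[simp] theorem cr1 (a b : V) : cr a b 1 = a 2 * b 0 - a 0 * b 2 := rfl
@[simp] theorem cr2 (a b : V) : cr a b 2 = a 0 * b 1 - a 1 * b 0 := rfl

theorem ext3 {a b : V} (h0 : a 0 = b 0) (h1 : a 1 = b 1) (h2 : a 2 = b 2) : a = b := by
  funext j
  fin_cases j
  · exact h0
  · exact h1
  · exact h2

theorem dt_comm (a b : V) : dt a b = dt b a := by unfold dt; ring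

theorem dt_add (a b c : V) : dt a (b + c) = dt a b + dt a c := by
  unfold dt; simp only [Pi.add_apply]; ring

theorem dt_smul (a b : V) (t : ℂ) : dt a (t • b) = t * dt a b := by
  unfold dt; simp only [Pi.smul_apply, smul_eq_mul]; ring

theorem cr_pair (a b x y : V) : dt (cr a b) (cr x y) = dt a x * dt b y - dt a y * dt b x := by
  unfold dt; simp only [cr0, cr1, cr2]; ring

/-- expansion with respect to a triple -/
theorem expand (a b c x y : V) : det3 a b c * dt x y
    = dt x a * dt (cr b c) y + dt x b * dt (cr c a) y + dt x c * dt (cr a b) y := by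
  unfold det3 dt; simp only [cr0, cr1, cr2]; ring

/-- expansion of a vector -/
theorem expand' (a b c x : V) : det3 a b c • x
    = dt x (cr b c) • a + dt x (cr c a) • b + dt x (cr a b) • c := by
  apply ext3 <;> simp only [Pi.add_apply, Pi.smul_apply, smul_eq_mul] <;> unfold det3 dt <;>
    simp only [cr0, cr1, cr2] <;> ring

theorem cr_cr (a b c : V) : cr a (cr b c) = dt a c • b - dt a b • c := by
  apply ext3 <;> simp only [Pi.sub_apply, Pi.smul_apply, smul_eq_mul] <;> unfold dt <;>
    simp only [cr0, cr1, cr2] <;> ring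

theorem cr_cr_same (a b c : V) : cr (cr a b) (cr a c) = det3 a b c • a := by
  apply ext3 <;> simp only [Pi.smul_apply, smul_eq_mul] <;> unfold det3 dt <;>
    simp only [cr0, cr1, cr2] <;> ring

theorem cr_swap (a b : V) : cr b a = -cr a b := by
  apply ext3 <;> simp only [Pi.neg_apply, cr0, cr1, cr2] <;> ring

theorem dt_cr_left (a b : V) : dt a (cr a b) = 0 := by
  unfold dt; simp only [cr0, cr1, cr2]; ring

theorem dt_cr_right (a b : V) : dt b (cr a b) = 0 := by
  unfold dt; simp only [cr0, cr1, cr2]; ring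

theorem dt_single (a : V) (j : Fin 3) : dt (Pi.single j 1) a = a j := by
  fin_cases j <;> simp [dt]

theorem eq_zero_of_dt {a : V} (h : ∀ x, dt x a = 0) : a = 0 := by
  apply ext3
  · simpa [dt_single] using h (Pi.single 0 1)
  · simpa [dt_single] using h (Pi.single 1 1)
  · simpa [dt_single] using h (Pi.single 2 1)

/-- a vector orthogonal to a nonzero vector is a vector product with it -/
theorem exists_cr {a x : V} (ha : a ≠ 0) (hx : dt x a = 0) : ∃ y, x = cr a y := by
  obtain ⟨b, hb⟩ : ∃ b, dt a b ≠ 0 := by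
    by_contra hcon
    push Not at hcon
    exact ha (eq_zero_of_dt fun x => by rw [dt_comm]; exact hcon x)
  refine ⟨(dt a b)⁻¹ • cr x b, ?_⟩
  have h1 : cr a ((dt a b)⁻¹ • cr x b) = (dt a b)⁻¹ • cr a (cr x b) := by
    apply ext3 <;> simp only [Pi.smul_apply, smul_eq_mul, cr0, cr1, cr2] <;> ring
  rw [h1, cr_cr, dt_comm a x, hx, zero_smul, sub_zero, smul_smul, inv_mul_cancel₀ hb, one_smul]

/-- the derivative of a curve -/
noncomputable def dd (F : ℂ → V) (z : ℂ) : V := fun j => deriv (fun z => F z j) z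

/-- the tangent line of a curve -/
noncomputable def Wd (F : ℂ → V) (z : ℂ) : V := cr (F z) (dd F z)

/-- entire curves in homogeneous coordinates -/
def Ent3 (F : ℂ → V) : Prop := ∀ j, Differentiable ℂ fun z => F z j

theorem Ent3.dt {F : ℂ → V} (hF : Ent3 F) (a : V) : Differentiable ℂ fun z => dt a (F z) := by
  unfold TL.dt
  exact (((hF 0).const_mul _).add ((hF 1).const_mul _)).add ((hF 2).const_mul _)

theorem Ent3.dd {F : ℂ → V} (hF : Ent3 F) : Ent3 (dd F) := fun j =>
  ((hF j).contDiff (n := 2)).differentiable_deriv_two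

theorem Ent3.cr {F G : ℂ → V} (hF : Ent3 F) (hG : Ent3 G) : Ent3 fun z => cr (F z) (G z) := by
  intro j
  fin_cases j
  · exact ((hF 1).mul (hG 2)).sub ((hF 2).mul (hG 1))
  · exact ((hF 2).mul (hG 0)).sub ((hF 0).mul (hG 2))
  · exact ((hF 0).mul (hG 1)).sub ((hF 1).mul (hG 0))

theorem Ent3.Wd {F : ℂ → V} (hF : Ent3 F) : Ent3 (Wd F) := hF.cr hF.dd

theorem deriv_dt {F : ℂ → V} (hF : Ent3 F) (a : V) (z : ℂ) :
    deriv (fun z => dt a (F z)) z = dt a (dd F z) := by
  have h0 := ((hF 0) z).hasDerivAt.const_mul (a 0)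
  have h1 := ((hF 1) z).hasDerivAt.const_mul (a 1)
  have h2 := ((hF 2) z).hasDerivAt.const_mul (a 2)
  exact ((h0.add h1).add h2).deriv

theorem Wd_pair {F : ℂ → V} (a b : V) (z : ℂ) : dt (cr a b) (Wd F z)
    = dt a (F z) * dt b (dd F z) - dt a (dd F z) * dt b (F z) := by
  unfold Wd
  rw [cr_pair]

/-- change of the parameter -/
theorem dd_comp {F : ℂ → V} (hF : Ent3 F) {φ : ℂ → ℂ} (hφ : Differentiable ℂ φ) (z : ℂ) :
    dd (fun z => F (φ z)) z = deriv φ z • dd F (φ z) := by
  funext j
  have h1 := ((hF j) (φ z)).hasDerivAt.comp z (hφ z).hasDerivAt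
  have h2 := h1.deriv
  simp only [dd, Pi.smul_apply, smul_eq_mul]
  rw [mul_comm]
  exact h2

theorem Wd_comp {F : ℂ → V} (hF : Ent3 F) {φ : ℂ → ℂ} (hφ : Differentiable ℂ φ) (z : ℂ) :
    Wd (fun z => F (φ z)) z = deriv φ z • Wd F (φ z) := by
  unfold Wd
  rw [dd_comp hF hφ]
  apply ext3 <;> simp only [Pi.smul_apply, smul_eq_mul, cr0, cr1, cr2] <;> ring

/-- the Wronskian of two functions whose ratio oscillates little -/
theorem wr_pair {a b : ℂ → ℂ} (ha : Differentiable ℂ a) (hb : Differentiable ℂ b) {z : ℂ} {ε : ℝ}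
    (hε : 0 < ε) (h0 : ∀ w ∈ closedBall z ε, a w ≠ 0)
    (hr : ∀ w ∈ closedBall z ε, ‖b w / a w‖ ≤ Real.exp 1 * ‖b z / a z‖) :
    ‖a z * deriv b z - deriv a z * b z‖ ≤ Real.exp 1 * (1 / ε) * (‖a z‖ * ‖b z‖) := by
  have haz := h0 z (mem_closedBall_self hε.le)
  have hd : DiffContOnCl ℂ (fun w => b w / a w) (ball z ε) := by
    apply DifferentiableOn.diffContOnCl
    rw [closure_ball z hε.ne']
    intro w hw
    exact ((hb w).div (ha w) (h0 w hw)).differentiableWithinAt
  have h1 := Complex.norm_deriv_le_of_forall_mem_sphere_norm_le hε hd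
    (fun w hw => hr w (sphere_subset_closedBall hw))
  have h2 : deriv (fun w => b w / a w) z = (deriv b z * a z - b z * deriv a z) / a z ^ 2 :=
    deriv_fun_div (hb z) (ha z) haz
  rw [h2, norm_div, norm_div, norm_pow] at h1
  have hp : 0 < ‖a z‖ := norm_pos_iff.mpr haz
  have e : a z * deriv b z - deriv a z * b z = deriv b z * a z - b z * deriv a z := by ring
  rw [e]
  rw [div_le_iff₀ (by positivity)] at h1
  refine h1.trans (le_of_eq ?_)
  field_simp

end Pool.Agent.W602.TL
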