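import Pool.Agent.W602.TL.Line

/-!
Entire curves which meet a line arrangement with large mean multiplicity.
-/

set_option autoImplicit false

namespace Pool.Agent.W602.TL

open Filter Metric Real Set Topology Pool.Agent.H159R3.NV Pool.Agent.W602.NC MvPolynomial

/-- the combinatorial condition follows from a lower bound for the mean multiplicity -/
theorem ram_mean {p A B K : ℕ} (hBA : B ≤ A) {a : Fin (p + 1) → ℕ}
    (hK : (Finset.univ.filter fun i => a i ≠ 0).card ≤ K)
    (h : A * (Finset.univ.filter fun i => a i ≠ 0).card ≤ B * ∑ i, a i) :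
    Ram (A - B) A K a := by
  classical
  by_cases h0 : ∀ i, a i = 0
  · exact Or.inl h0
  push Not at h0
  obtain ⟨j, hj⟩ := h0
  obtain ⟨i0, _, hmax⟩ := Finset.exists_max_image Finset.univ a ⟨j, Finset.mem_univ _⟩
  have hi0 : 1 ≤ a i0 := le_trans (Nat.one_le_iff_ne_zero.mpr hj) (hmax j (Finset.mem_univ _))
  set m2 : ℕ := (Finset.univ.erase i0).sup a with hm2
  have hm2a : m2 ≤ a i0 := Finset.sup_le fun i _ => hmax i (Finset.mem_univ _)
  have hle : ∀ i, i ≠ i0 → a i ≤ m2 := fun i hi =>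
    Finset.le_sup (f := a) (Finset.mem_erase.mpr ⟨hi, Finset.mem_univ _⟩)
  set k : ℕ := (Finset.univ.filter fun i => a i ≠ 0).card with hk
  have hi0k : i0 ∈ Finset.univ.filter fun i => a i ≠ 0 :=
    Finset.mem_filter.mpr ⟨Finset.mem_univ _, by omega⟩
  have hk1 : 1 ≤ k := Finset.card_pos.mpr ⟨i0, hi0k⟩
  refine Or.inr ⟨i0, m2 - 1, by omega, ?_, ?_⟩
  · rcases Nat.eq_zero_or_pos (m2 - 1) with h1 | h1
    · exact Or.inl h1
    · refine Or.inr ?_
      have hne : (Finset.univ.erase i0).Nonempty := by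
        by_contra hcon
        rw [Finset.not_nonempty_iff_eq_empty] at hcon
        rw [hm2, hcon, Finset.sup_empty] at h1
        simp at h1
      obtain ⟨i1, hi1, hi1'⟩ := Finset.exists_mem_eq_sup _ hne a
      exact ⟨i1, Finset.ne_of_mem_erase hi1, by rw [← hi1', ← hm2]; omega⟩
  · set r : ℕ := m2 - 1 with hr
    have hle' : ∀ i, i ≠ i0 → a i ≤ r + 1 := fun i hi => by
      have := hle i hi
      omega
    have hS : ∑ i, a i ≤ a i0 + (k - 1) * (r + 1) := by
      rw [← Finset.add_sum_erase _ _ (Finset.mem_univ i0)]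
      apply Nat.add_le_add_left
      have e1 : ∑ i ∈ Finset.univ.erase i0, a i
          = ∑ i ∈ (Finset.univ.filter fun i => a i ≠ 0).erase i0, a i := by
        symm
        apply Finset.sum_subset
        · exact Finset.erase_subset_erase _ (Finset.filter_subset _ _)
        · intro i hi hi'
          by_contra hne
          apply hi'
          exact Finset.mem_erase.mpr ⟨Finset.ne_of_mem_erase hi,
            Finset.mem_filter.mpr ⟨Finset.mem_univ _, hne⟩⟩
      rw [e1]
      refine (Finset.sum_le_card_nsmul _ _ (r + 1) fun i hi =>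
        hle' i (Finset.ne_of_mem_erase hi)).trans ?_
      rw [Finset.card_erase_of_mem hi0k, smul_eq_mul]
    have hkK : (k - 1) * A * r ≤ (K - 1) * A * r :=
      Nat.mul_le_mul_right _ (Nat.mul_le_mul_right _ (by omega))
    refine le_trans ?_ (Nat.add_le_add_left hkK _)
    set S : ℕ := ∑ i, a i with hSd
    obtain ⟨m, hm⟩ : ∃ m, a i0 = m + 1 := ⟨a i0 - 1, by omega⟩
    obtain ⟨k', hk'⟩ : ∃ k', k = k' + 1 := ⟨k - 1, by omega⟩
    obtain ⟨C, hC⟩ : ∃ C, A = B + C := ⟨A - B, by omega⟩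
    have hCA : A - B = C := by omega
    rw [hm, hk'] at hS
    rw [hk'] at h
    rw [hm, hk', hCA]
    simp only [Nat.add_sub_cancel] at hS ⊢
    have h3 : A * S ≤ A * (m + 1 + k' * (r + 1)) := Nat.mul_le_mul_left A hS
    have h4 : C * S + B * S = A * S := by rw [hC]; ring
    have h5 : A * (m + 1 + k' * (r + 1)) = A * m + k' * A * r + A * (k' + 1) := by ring
    omega

/-- the hypothesis on the multiplicities of a curve in the plane -/
def Mean {p : ℕ} (ℓ : Fin (p + 1) → V) (A B : ℕ) (F : ℂ → V) : Prop :=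
  ∀ z, ∀ a : Fin (p + 1) → ℕ, (∀ i, analyticOrderAt (UF ℓ F i) z = a i) →
    A * (Finset.univ.filter fun i => a i ≠ 0).card ≤ B * ∑ i, a i

theorem rcurve {p A B K : ℕ} {ℓ : Fin (p + 1) → V} (hA : Arr ℓ K) (hBA : B ≤ A) {F : ℂ → V}
    (hF : Ent3 F) (hnz : ∀ z, F z ≠ 0) (hne : ∀ i, ∃ z, UF ℓ F i z ≠ 0) (hM : Mean ℓ A B F) :
    RCurve ℓ (A - B) A K F := by
  classical
  refine ⟨hF, hnz, hne, fun z => ?_⟩
  set a : Fin (p + 1) → ℕ := fun i => (analyticOrderAt (UF ℓ F i) z).toNat with ha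
  have hord : ∀ i, analyticOrderAt (UF ℓ F i) z = a i := fun i =>
    ord_fin (UF_diff ℓ hF i) (hne i) z
  refine ram_mean hBA ?_ (hM z a hord)
  refine le_trans (Finset.card_le_card ?_) (hA.conc (F z) (hnz z))
  intro i hi
  have hi' := (Finset.mem_filter.mp hi).2
  refine Finset.mem_filter.mpr ⟨Finset.mem_univ _, ?_⟩
  by_contra hcon
  have h1 := ((UF_diff ℓ hF i).analyticAt z).analyticOrderAt_eq_zero.mpr hcon
  rw [hord i] at h1
  exact hi' (by exact_mod_cast h1)

/-- the linear form as a polynomial -/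
noncomputable def linp (a : V) : TP := C (a 0) * X 0 + C (a 1) * X 1 + C (a 2) * X 2

theorem eval_linp (a x : V) : eval x (linp a) = dt a x := by
  unfold linp dt
  simp

theorem linp_hom (a : V) : (linp a).IsHomogeneous 1 := by
  unfold linp
  have h : ∀ j : Fin 3, (C (a j) * X j : TP).IsHomogeneous 1 := fun j => by
    have := (isHomogeneous_C (Fin 3) (a j)).mul (isHomogeneous_X ℂ j)
    simpa using this
  exact ((h 0).add (h 1)).add (h 2)

theorem linp_ne {a : V} (ha : a ≠ 0) : linp a ≠ 0 := by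
  intro h0
  apply ha
  apply eq_zero_of_dt
  intro x
  rw [dt_comm, ← eval_linp, h0, map_zero]

/-- All nonconstant entire curves with large mean multiplicity lie in a fixed algebraic curve. -/
theorem mean_core {p A B K : ℕ} {ℓ : Fin (p + 1) → V} (hA : Arr ℓ K) (hBA : B < A) (hK : 1 ≤ K)
    (h1 : 4 * A ^ 2 < (p + 1) * (A - B) ^ 2) (h2 : 2 * (K * A) < (p + 1) * (A - B)) :
    ∃ (R : TP) (e : ℕ), R.IsHomogeneous e ∧ R ≠ 0 ∧
      ∀ F, Ent3 F → (∀ z, F z ≠ 0) → NonConst F → Mean ℓ A B F → ∀ z, eval (F z) R = 0 := by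
  classical
  obtain ⟨R, e, hR, hR0, hRF⟩ := core hA (by omega : 1 ≤ A - B) (Nat.sub_le A B) hK h1 h2
  refine ⟨R * ∏ i, linp (ℓ i), e + ∑ _i : Fin (p + 1), 1,
    hR.mul (IsHomogeneous.prod _ _ _ fun i _ => linp_hom _), mul_ne_zero hR0
      (Finset.prod_ne_zero_iff.mpr fun i _ => linp_ne (hA.ne i)), fun F hF hnz hnc hM z => ?_⟩
  rw [map_mul, map_prod]
  by_cases hne : ∀ i, ∃ z, UF ℓ F i z ≠ 0
  · rw [hRF F (rcurve hA hBA.le hF hnz hne hM) hnc z, zero_mul]
  · push Not at hne
    obtain ⟨i, hi⟩ := hne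
    rw [Finset.prod_eq_zero (Finset.mem_univ i), mul_zero]
    rw [eval_linp]
    exact hi z

end Pool.Agent.W602.TL
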