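import Pool.Agent.W602.TL.Point2

/-!
Orders of vanishing of forms in the tangent line, and the differential equation for ramified
curves.
-/

set_option autoImplicit false

namespace Pool.Agent.W602.TL

open Filter Metric Real Set Topology Pool.Agent.H159R3.NV Pool.Agent.W602.NC MvPolynomial

/-- The condition on the multiplicities `a i` with which a curve meets the lines. -/
def Ram (c ν K : ℕ) {p : ℕ} (a : Fin (p + 1) → ℕ) : Prop :=
  (∀ i, a i = 0) ∨ ∃ i0 r, r + 1 ≤ a i0 ∧ (r = 0 ∨ ∃ i1, i1 ≠ i0 ∧ r + 1 ≤ a i1) ∧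
    c * ∑ i, a i ≤ ν * (a i0 - 1) + (K - 1) * ν * r

/-- ramified entire curves -/
structure RCurve {p : ℕ} (ℓ : Fin (p + 1) → V) (c ν K : ℕ) (F : ℂ → V) : Prop where
  ent : Ent3 F
  nz : ∀ z, F z ≠ 0
  ne : ∀ i, ∃ z, UF ℓ F i z ≠ 0
  ram : ∀ z, Ram c ν K fun i => (analyticOrderAt (UF ℓ F i) z).toNat

theorem ord_fin {f : ℂ → ℂ} (hf : Differentiable ℂ f) (h0 : ∃ z, f z ≠ 0) (x : ℂ) :
    analyticOrderAt f x = ((analyticOrderAt f x).toNat : ℕ∞) := by
  obtain ⟨z, hz⟩ := h0
  have h1 := AnalyticOnNhd.analyticOrderAt_ne_top_of_isPreconnected (f := f) (U := Set.univ)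
    (fun z _ => hf.analyticAt z) isPreconnected_univ (x := z) (y := x) (Set.mem_univ _)
    (Set.mem_univ _) (by rw [(hf.analyticAt z).analyticOrderAt_eq_zero.mpr hz]; simp)
  exact (ENat.natCast_toNat h1).symm

theorem ord_sub_ge {f g : ℂ → ℂ} {x : ℂ} {N : ℕ∞}
    (hf : N ≤ analyticOrderAt f x) (hg : N ≤ analyticOrderAt g x) :
    N ≤ analyticOrderAt (fun z => f z - g z) x := by
  have e : (fun z => f z - g z) = f - g := rfl
  rw [e]
  exact (le_min hf hg).trans le_analyticOrderAt_sub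

theorem pair_order {F : ℂ → V} (hF : Ent3 F) {a : V} {n : ℕ} {x : ℂ}
    (h : (n : ℕ∞) ≤ analyticOrderAt (fun z => dt a (F z)) x) (b : V) :
    ((n - 1 : ℕ) : ℕ∞) ≤ analyticOrderAt (fun z => dt (cr a b) (Wd F z)) x := by
  have e : (fun z => dt (cr a b) (Wd F z))
      = fun z => dt a (F z) * dt b (dd F z) - dt a (dd F z) * dt b (F z) :=
    funext fun z => Wd_pair a b z
  rw [e]
  have hd : ((n - 1 : ℕ) : ℕ∞) ≤ analyticOrderAt (fun z => dt a (dd F z)) x := by
    have h1 := ord_deriv ((hF.dt a).analyticAt x)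
    have e2 : deriv (fun z => dt a (F z)) = fun z => dt a (dd F z) :=
      funext fun z => deriv_dt hF a z
    rw [e2] at h1
    rw [ENat.natCast_sub, Nat.cast_one, tsub_le_iff_right]
    exact h.trans h1
  have h0 : ((n - 1 : ℕ) : ℕ∞) ≤ analyticOrderAt (fun z => dt a (F z)) x :=
    le_trans (by exact_mod_cast Nat.sub_le n 1) h
  apply ord_sub_ge
  · have := ord_mul_ge (b := 0) ((hF.dt a).analyticAt x) ((hF.dd.dt b).analyticAt x) h0 (by simp)
    simpa using this
  · have := ord_mul_ge (b := 0) ((hF.dd.dt a).analyticAt x) ((hF.dt b).analyticAt x) hd (by simp)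
    simpa using this

theorem dt_add_left (a b c : V) : dt (a + b) c = dt a c + dt b c := by
  unfold dt; simp only [Pi.add_apply]; ring

theorem dt_smul_left (a b : V) (t : ℂ) : dt (t • a) b = t * dt a b := by
  unfold dt; simp only [Pi.smul_apply, smul_eq_mul]; ring

theorem ord_add_ge {f g : ℂ → ℂ} {x : ℂ} {N : ℕ∞}
    (hf : N ≤ analyticOrderAt f x) (hg : N ≤ analyticOrderAt g x) :
    N ≤ analyticOrderAt (fun z => f z + g z) x := by
  have e : (fun z => f z + g z) = f + g := rfl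
  rw [e]
  exact (le_min hf hg).trans le_analyticOrderAt_add

/-- all coordinates of the tangent line vanish to order `r` -/
theorem all_order {F : ℂ → V} (hF : Ent3 F) {a b : V} (hab : cr a b ≠ 0) {r : ℕ} {x : ℂ}
    (ha : ((r + 1 : ℕ) : ℕ∞) ≤ analyticOrderAt (fun z => dt a (F z)) x)
    (hb : ((r + 1 : ℕ) : ℕ∞) ≤ analyticOrderAt (fun z => dt b (F z)) x) (e : V) :
    (r : ℕ∞) ≤ analyticOrderAt (fun z => dt e (Wd F z)) x := by
  obtain ⟨k, hk⟩ : ∃ k, dt k (cr a b) ≠ 0 := by
    by_contra hcon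
    push Not at hcon
    exact hab (eq_zero_of_dt hcon)
  have hD : det3 k a b ≠ 0 := hk
  have h1 : ∀ z, dt e (Wd F z) = (det3 k a b)⁻¹ * (dt e k * dt (cr a b) (Wd F z)
      + (dt e a * (-1) * dt (cr k b) (Wd F z)) + (dt e b * (-1) * dt (cr a k) (Wd F z))) := by
    intro z
    have h2 := expand k a b e (Wd F z)
    have h3 : dt (cr b k) (Wd F z) = -1 * dt (cr k b) (Wd F z) := by
      rw [cr_swap k b]; unfold dt; simp only [Pi.neg_apply]; ring
    have h4 : dt (cr k a) (Wd F z) = -1 * dt (cr a k) (Wd F z) := by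
      rw [cr_swap a k]; unfold dt; simp only [Pi.neg_apply]; ring
    rw [h3, h4] at h2
    rw [eq_inv_mul_iff_mul_eq₀ hD, h2]
    ring
  rw [funext h1]
  have hW : ∀ v, AnalyticAt ℂ (fun z => dt v (Wd F z)) x := fun v => (hF.Wd.dt v).analyticAt x
  have hpa : ∀ v, (r : ℕ∞) ≤ analyticOrderAt (fun z => dt (cr a v) (Wd F z)) x := by
    intro v
    have := pair_order hF ha v
    simpa using this
  have hpb : ∀ v, (r : ℕ∞) ≤ analyticOrderAt (fun z => dt (cr b v) (Wd F z)) x := by
    intro v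
    have := pair_order hF hb v
    simpa using this
  have hpb' : ∀ v, (r : ℕ∞) ≤ analyticOrderAt (fun z => dt (cr v b) (Wd F z)) x := by
    intro v
    have h2 : (fun z => dt (cr v b) (Wd F z)) = fun z => (-1) * dt (cr b v) (Wd F z) := by
      funext z
      rw [cr_swap b v]; unfold dt; simp only [Pi.neg_apply]; ring
    rw [h2]
    exact ord_const_mul_ge (hW _) (hpb v) _
  apply ord_const_mul_ge
  · exact ((analyticAt_const.mul (hW _)).add (analyticAt_const.mul (hW _))).add
      (analyticAt_const.mul (hW _))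
  · exact ord_add_ge (ord_add_ge (ord_const_mul_ge (hW _) (hpa b) _)
      (ord_const_mul_ge (hW _) (hpb' k) _)) (ord_const_mul_ge (hW _) (hpa k) _)

/-- the order of a form in the tangent line -/
theorem form_order {F : ℂ → V} (hF : Ent3 F) {a b e : V} (hD : det3 a b e ≠ 0) {d ν n r : ℕ} {G : TP}
    (hG : G.IsHomogeneous d) (hv : Van ν (sub3 a b e G)) {x : ℂ}
    (hn : (n : ℕ∞) ≤ analyticOrderAt (fun z => dt a (F z)) x) (hr : r + 1 ≤ n)
    (hall : ∀ v, (r : ℕ∞) ≤ analyticOrderAt (fun z => dt v (Wd F z)) x) :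
    (((d - ν) * r + ν * (n - 1) : ℕ) : ℕ∞) ≤ analyticOrderAt (fun z => eval (Wd F z) G) x := by
  have e1 : (fun z => eval (Wd F z) G) = fun z => eval (crd a b e (Wd F z)) (sub3 a b e G) :=
    funext fun z => eval_crd hD _ G
  rw [e1]
  have hW : ∀ v, AnalyticAt ℂ (fun z => dt v (Wd F z)) x := fun v => (hF.Wd.dt v).analyticAt x
  apply van_order (sub3_hom _ _ _ hG) hv (y := fun z => crd a b e (Wd F z))
  · intro j
    fin_cases j
    · exact hW _
    · exact hW _
    · exact hW _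
  · exact hall _
  · have e2 : (fun z => crd a b e (Wd F z) 1)
        = fun z => (-(det3 a b e)⁻¹) * dt (cr a e) (Wd F z) := by
      funext z
      change dt ((det3 a b e)⁻¹ • cr e a) (Wd F z) = _
      rw [dt_smul_left, cr_swap a e]
      unfold dt; simp only [Pi.neg_apply]; ring
    rw [e2]
    exact ord_const_mul_ge (hW _) (pair_order hF hn e) _
  · have e2 : (fun z => crd a b e (Wd F z) 2)
        = fun z => ((det3 a b e)⁻¹) * dt (cr a b) (Wd F z) := by
      funext z
      change dt ((det3 a b e)⁻¹ • cr a b) (Wd F z) = _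
      rw [dt_smul_left]
    rw [e2]
    exact ord_const_mul_ge (hW _) (pair_order hF hn b) _
  · omega

section

variable {p : ℕ} {ℓ : Fin (p + 1) → V} {c ν K : ℕ}

/-- change of the parameter in a ramified curve -/
theorem RCurve.comp {F : ℂ → V} (h : RCurve ℓ c ν K F) (z0 : ℂ) :
    RCurve ℓ c ν K fun z => F (ex z0 z) := by
  refine ⟨fun j => (h.ent j).comp (ex_diff z0), fun z => h.nz _, ?_, ?_⟩
  · intro i
    obtain ⟨z, hz⟩ := h.ne i
    by_contra hcon
    push Not at hcon
    apply hz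
    apply zero_of_punctured (UF_diff ℓ h.ent i)
    intro w hw
    have h1 := hcon (Complex.log w - z0)
    have e : ex z0 (Complex.log w - z0) = w := by
      unfold ex
      rw [sub_add_cancel, Complex.exp_log hw]
    change dt (ℓ i) (F (ex z0 (Complex.log w - z0))) = 0 at h1
    rw [e] at h1
    exact h1
  · intro z
    have e : ∀ i, analyticOrderAt (UF ℓ (fun z => F (ex z0 z)) i) z
        = analyticOrderAt (UF ℓ F i) (ex z0 z) := by
      intro i
      have e1 : UF ℓ (fun z => F (ex z0 z)) i = UF ℓ F i ∘ ex z0 := rfl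
      rw [e1, analyticOrderAt_comp_of_deriv_ne_zero ((ex_diff z0).analyticAt z)]
      rw [ex_deriv]
      exact ex_ne z0 z
    simp only [e]
    exact h.ram _

/-- the order of the product of the linear forms -/
theorem prod_order {F : ℂ → V} (hF : Ent3 F) (hne : ∀ i, ∃ z, UF ℓ F i z ≠ 0) (c : ℕ) (z : ℂ) :
    analyticOrderAt (fun z => ∏ i, UF ℓ F i z ^ c) z
      = ((c * ∑ i, (analyticOrderAt (UF ℓ F i) z).toNat : ℕ) : ℕ∞) := by
  rw [ord_prod _ (fun i z => UF ℓ F i z ^ c) z (fun i _ => ((UF_diff ℓ hF i).analyticAt z).pow c),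
    Finset.mul_sum]
  push_cast
  refine Finset.sum_congr rfl fun i _ => ?_
  have e : (fun z => UF ℓ F i z ^ c) = UF ℓ F i ^ c := rfl
  rw [e, analyticOrderAt_pow ((UF_diff ℓ hF i).analyticAt z), nsmul_eq_mul,
    ord_fin (UF_diff ℓ hF i) (hne i) z]
  simp

/-- the order inequality -/
theorem RCurve.order {F : ℂ → V} (h : RCurve ℓ c ν K F) (hA : Arr ℓ K) {t d : ℕ}
    (hd : K * (ν * t) ≤ d) {b e : Fin (p + 1) → V}
    (hb : ∀ i, det3 (ℓ i) (b i) (e i) ≠ 0) {G : TP} (hG : G.IsHomogeneous d)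
    (hv : ∀ i, Van (ν * t) (sub3 (ℓ i) (b i) (e i) G)) (z : ℂ) :
    analyticOrderAt (fun z => ∏ i, UF ℓ F i z ^ (c * t)) z
      ≤ analyticOrderAt (fun z => eval (Wd F z) G) z := by
  rw [prod_order h.ent h.ne]
  rcases h.ram z with h0 | ⟨i0, r, h1, h2, h3⟩
  · rw [Finset.sum_eq_zero fun i _ => h0 i]
    simp
  · simp only at h1 h2 h3
    have ho : ∀ i, ((analyticOrderAt (UF ℓ F i) z).toNat : ℕ∞)
        ≤ analyticOrderAt (fun z => dt (ℓ i) (F z)) z :=
      fun i => (ord_fin (UF_diff ℓ h.ent i) (h.ne i) z).ge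
    have hall : ∀ v, (r : ℕ∞) ≤ analyticOrderAt (fun z => dt v (Wd F z)) z := by
      rcases h2 with rfl | ⟨i1, h10, h11⟩
      · simp
      · apply all_order h.ent (hA.dist i0 i1 h10.symm)
        · exact le_trans (by exact_mod_cast h1) (ho i0)
        · exact le_trans (by exact_mod_cast h11) (ho i1)
    refine le_trans ?_ (form_order h.ent (hb i0) hG (hv i0) (ho i0) h1 hall)
    have key : c * t * ∑ i, (analyticOrderAt (UF ℓ F i) z).toNat
        ≤ (d - ν * t) * r + ν * t * ((analyticOrderAt (UF ℓ F i0) z).toNat - 1) := by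
      have h4 : (K - 1) * (ν * t) ≤ d - ν * t := by
        rw [Nat.sub_mul, one_mul]
        exact Nat.sub_le_sub_right hd _
      calc c * t * ∑ i, (analyticOrderAt (UF ℓ F i) z).toNat
          = t * (c * ∑ i, (analyticOrderAt (UF ℓ F i) z).toNat) := by ring
        _ ≤ t * (ν * ((analyticOrderAt (UF ℓ F i0) z).toNat - 1) + (K - 1) * ν * r) :=
            Nat.mul_le_mul_left t h3
        _ = (K - 1) * (ν * t) * r + ν * t * ((analyticOrderAt (UF ℓ F i0) z).toNat - 1) := by ring
        _ ≤ _ := Nat.add_le_add_right (Nat.mul_le_mul_right r h4) _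
    exact_mod_cast key

end

end Pool.Agent.W602.TL
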