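import Pool.Agent.W602.TL.Poly

/-!
The pointwise estimate for forms in the tangent line.
-/

set_option autoImplicit false

namespace Pool.Agent.W602.TL

open Filter Metric Real Set Topology Pool.Agent.H159R3.NV Pool.Agent.W602.NC MvPolynomial

/-- size of a vector -/
noncomputable def nm (a : V) : ℝ := ‖a 0‖ + ‖a 1‖ + ‖a 2‖

theorem nm_nonneg (a : V) : 0 ≤ nm a := by unfold nm; positivity

theorem dt_le (a b : V) : ‖dt a b‖ ≤ nm a * nm b := by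
  unfold dt nm
  have h0 := norm_nonneg (a 0)
  have h1 := norm_nonneg (a 1)
  have h2 := norm_nonneg (a 2)
  have h3 := norm_nonneg (b 0)
  have h4 := norm_nonneg (b 1)
  have h5 := norm_nonneg (b 2)
  calc ‖a 0 * b 0 + a 1 * b 1 + a 2 * b 2‖ ≤ ‖a 0 * b 0‖ + ‖a 1 * b 1‖ + ‖a 2 * b 2‖ :=
        (norm_add_le _ _).trans (add_le_add_left (norm_add_le _ _) _)
    _ = ‖a 0‖ * ‖b 0‖ + ‖a 1‖ * ‖b 1‖ + ‖a 2‖ * ‖b 2‖ := by rw [norm_mul, norm_mul, norm_mul]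
    _ ≤ _ := by nlinarith [mul_nonneg h0 h4, mul_nonneg h0 h5, mul_nonneg h1 h3, mul_nonneg h1 h5,
        mul_nonneg h2 h3, mul_nonneg h2 h4]

/-- the values of the linear forms along a curve -/
def UF {p : ℕ} (ℓ : Fin (p + 1) → V) (F : ℂ → V) : Fin (p + 1) → ℂ → ℂ := fun i z => dt (ℓ i) (F z)

theorem UF_diff {p : ℕ} (ℓ : Fin (p + 1) → V) {F : ℂ → V} (hF : Ent3 F) (i : Fin (p + 1)) :
    Differentiable ℂ (UF ℓ F i) := hF.dt _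

theorem pair_le {p : ℕ} (ℓ : Fin (p + 1) → V) {F : ℂ → V} (hF : Ent3 F) {z : ℂ} {ε : ℝ}
    (hε : 0 < ε) (hg : GoodAt (UF ℓ F) z ε) (i j : Fin (p + 1)) :
    ‖dt (cr (ℓ i) (ℓ j)) (Wd F z)‖
      ≤ Real.exp 1 * (1 / ε) * (‖UF ℓ F i z‖ * ‖UF ℓ F j z‖) := by
  rw [Wd_pair, ← deriv_dt hF, ← deriv_dt hF]
  exact wr_pair (hF.dt _) (hF.dt _) hε (fun w hw => hg.1 i w hw) (fun w hw => hg.2 i j w hw)

/-- constants for the triples of linear forms -/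
theorem exists_C {p : ℕ} (ℓ : Fin (p + 1) → V) : ∃ C : ℝ, 1 ≤ C ∧
    ∀ i j k, det3 (ℓ i) (ℓ j) (ℓ k) ≠ 0 →
      (∀ (e y : V) (ρ : ℝ), ‖dt (cr (ℓ j) (ℓ k)) y‖ ≤ ρ → ‖dt (cr (ℓ k) (ℓ i)) y‖ ≤ ρ →
        ‖dt (cr (ℓ i) (ℓ j)) y‖ ≤ ρ → ‖dt e y‖ ≤ C * nm e * ρ) ∧
      (∀ (e y : V) (ρ : ℝ), dt e (ℓ i) = 0 → ‖dt (cr (ℓ k) (ℓ i)) y‖ ≤ ρ →
        ‖dt (cr (ℓ i) (ℓ j)) y‖ ≤ ρ → ‖dt e y‖ ≤ C * nm e * ρ) ∧
      (∀ (x : V) (ρ : ℝ), ‖dt (ℓ i) x‖ ≤ ρ → ‖dt (ℓ j) x‖ ≤ ρ → ‖dt (ℓ k) x‖ ≤ ρ →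
        ∀ l, ‖dt (ℓ l) x‖ ≤ C * ρ) := by
  classical
  set Cf : Fin (p + 1) × Fin (p + 1) × Fin (p + 1) → ℝ := fun t =>
    (nm (ℓ t.1) + nm (ℓ t.2.1) + nm (ℓ t.2.2)) / ‖det3 (ℓ t.1) (ℓ t.2.1) (ℓ t.2.2)‖
      + (∑ l, (nm (cr (ℓ t.2.1) (ℓ t.2.2)) + nm (cr (ℓ t.2.2) (ℓ t.1)) + nm (cr (ℓ t.1) (ℓ t.2.1)))
        * nm (ℓ l)) / ‖det3 (ℓ t.1) (ℓ t.2.1) (ℓ t.2.2)‖ with hCf
  have hn := nm_nonneg
  have hCf0 : ∀ t, 0 ≤ Cf t := by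
    intro t
    simp only [hCf]
    have h1 := hn (ℓ t.1)
    have h2 := hn (ℓ t.2.1)
    have h3 := hn (ℓ t.2.2)
    have h4 : 0 ≤ ∑ l, (nm (cr (ℓ t.2.1) (ℓ t.2.2)) + nm (cr (ℓ t.2.2) (ℓ t.1))
        + nm (cr (ℓ t.1) (ℓ t.2.1))) * nm (ℓ l) :=
      Finset.sum_nonneg fun l _ => mul_nonneg (add_nonneg (add_nonneg (hn _) (hn _)) (hn _)) (hn _)
    positivity
  set C : ℝ := 1 + ∑ t, Cf t with hC
  have hsum : 0 ≤ ∑ t, Cf t := Finset.sum_nonneg fun t _ => hCf0 t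
  refine ⟨C, by linarith, ?_⟩
  intro i j k hD
  have hCt : Cf (i, j, k) ≤ C := by
    have := Finset.single_le_sum (f := Cf) (fun t _ => hCf0 t) (Finset.mem_univ (i, j, k))
    linarith
  have hDp : 0 < ‖det3 (ℓ i) (ℓ j) (ℓ k)‖ := norm_pos_iff.mpr hD
  have hA : (nm (ℓ i) + nm (ℓ j) + nm (ℓ k)) / ‖det3 (ℓ i) (ℓ j) (ℓ k)‖ ≤ C := by
    refine le_trans ?_ hCt
    simp only [hCf]
    have h4 : 0 ≤ ∑ l, (nm (cr (ℓ j) (ℓ k)) + nm (cr (ℓ k) (ℓ i))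
        + nm (cr (ℓ i) (ℓ j))) * nm (ℓ l) :=
      Finset.sum_nonneg fun l _ => mul_nonneg (add_nonneg (add_nonneg (hn _) (hn _)) (hn _)) (hn _)
    have : 0 ≤ (∑ l, (nm (cr (ℓ j) (ℓ k)) + nm (cr (ℓ k) (ℓ i))
        + nm (cr (ℓ i) (ℓ j))) * nm (ℓ l)) / ‖det3 (ℓ i) (ℓ j) (ℓ k)‖ := by positivity
    linarith
  have hB : ∀ l, ((nm (cr (ℓ j) (ℓ k)) + nm (cr (ℓ k) (ℓ i)) + nm (cr (ℓ i) (ℓ j))) * nm (ℓ l))
      / ‖det3 (ℓ i) (ℓ j) (ℓ k)‖ ≤ C := by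
    intro l
    refine le_trans ?_ hCt
    simp only [hCf]
    have h4 := Finset.single_le_sum (f := fun l => (nm (cr (ℓ j) (ℓ k)) + nm (cr (ℓ k) (ℓ i))
        + nm (cr (ℓ i) (ℓ j))) * nm (ℓ l)) (fun l _ => mul_nonneg (add_nonneg (add_nonneg (hn _)
          (hn _)) (hn _)) (hn _)) (Finset.mem_univ l)
    have h5 := div_le_div_of_nonneg_right h4 hDp.le
    have : 0 ≤ (nm (ℓ i) + nm (ℓ j) + nm (ℓ k)) / ‖det3 (ℓ i) (ℓ j) (ℓ k)‖ := by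
      have h1 := hn (ℓ i)
      have h2 := hn (ℓ j)
      have h3 := hn (ℓ k)
      positivity
    linarith
  rw [div_le_iff₀ hDp] at hA
  refine ⟨?_, ?_, ?_⟩
  · intro e y ρ h1 h2 h3
    have hρ : 0 ≤ ρ := (norm_nonneg _).trans h1
    have he := expand (ℓ i) (ℓ j) (ℓ k) e y
    have h4 : ‖det3 (ℓ i) (ℓ j) (ℓ k)‖ * ‖dt e y‖
        ≤ nm e * (nm (ℓ i) + nm (ℓ j) + nm (ℓ k)) * ρ := by
      rw [← norm_mul, he]
      calc _ ≤ ‖dt e (ℓ i)‖ * ‖dt (cr (ℓ j) (ℓ k)) y‖ + ‖dt e (ℓ j)‖ * ‖dt (cr (ℓ k) (ℓ i)) y‖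
            + ‖dt e (ℓ k)‖ * ‖dt (cr (ℓ i) (ℓ j)) y‖ := by
            rw [← norm_mul, ← norm_mul, ← norm_mul]
            exact (norm_add_le _ _).trans (add_le_add_left (norm_add_le _ _) _)
        _ ≤ (nm e * nm (ℓ i)) * ρ + (nm e * nm (ℓ j)) * ρ + (nm e * nm (ℓ k)) * ρ := by
            have d1 := dt_le e (ℓ i)
            have d2 := dt_le e (ℓ j)
            have d3 := dt_le e (ℓ k)
            have m1 := hn e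
            gcongr <;> exact mul_nonneg m1 (hn _)
        _ = _ := by ring
    have h5 : ‖det3 (ℓ i) (ℓ j) (ℓ k)‖ * ‖dt e y‖
        ≤ ‖det3 (ℓ i) (ℓ j) (ℓ k)‖ * (C * nm e * ρ) := by
      refine h4.trans ?_
      have := mul_le_mul_of_nonneg_left hA (mul_nonneg (hn e) hρ)
      nlinarith
    exact le_of_mul_le_mul_left h5 hDp
  · intro e y ρ h0 h2 h3
    have hρ : 0 ≤ ρ := (norm_nonneg _).trans h2
    have he := expand (ℓ i) (ℓ j) (ℓ k) e y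
    rw [h0, zero_mul, zero_add] at he
    have h4 : ‖det3 (ℓ i) (ℓ j) (ℓ k)‖ * ‖dt e y‖
        ≤ nm e * (nm (ℓ i) + nm (ℓ j) + nm (ℓ k)) * ρ := by
      rw [← norm_mul, he]
      calc _ ≤ ‖dt e (ℓ j)‖ * ‖dt (cr (ℓ k) (ℓ i)) y‖
            + ‖dt e (ℓ k)‖ * ‖dt (cr (ℓ i) (ℓ j)) y‖ := by
            rw [← norm_mul, ← norm_mul]
            exact norm_add_le _ _
        _ ≤ (nm e * nm (ℓ j)) * ρ + (nm e * nm (ℓ k)) * ρ := by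
            have d2 := dt_le e (ℓ j)
            have d3 := dt_le e (ℓ k)
            have m1 := hn e
            gcongr <;> exact mul_nonneg m1 (hn _)
        _ ≤ _ := by nlinarith [mul_nonneg (mul_nonneg (hn e) (hn (ℓ i))) hρ]
    have h5 : ‖det3 (ℓ i) (ℓ j) (ℓ k)‖ * ‖dt e y‖
        ≤ ‖det3 (ℓ i) (ℓ j) (ℓ k)‖ * (C * nm e * ρ) := by
      refine h4.trans ?_
      have := mul_le_mul_of_nonneg_left hA (mul_nonneg (hn e) hρ)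
      nlinarith
    exact le_of_mul_le_mul_left h5 hDp
  · intro x ρ h1 h2 h3 l
    have hρ : 0 ≤ ρ := (norm_nonneg _).trans h1
    have he := expand (ℓ i) (ℓ j) (ℓ k) x (ℓ l)
    have hBl := hB l
    rw [div_le_iff₀ hDp] at hBl
    have h4 : ‖det3 (ℓ i) (ℓ j) (ℓ k)‖ * ‖dt (ℓ l) x‖
        ≤ ((nm (cr (ℓ j) (ℓ k)) + nm (cr (ℓ k) (ℓ i)) + nm (cr (ℓ i) (ℓ j))) * nm (ℓ l)) * ρ := by
      rw [dt_comm (ℓ l) x, ← norm_mul, he, dt_comm x, dt_comm x, dt_comm x]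
      calc _ ≤ ‖dt (ℓ i) x‖ * ‖dt (cr (ℓ j) (ℓ k)) (ℓ l)‖ + ‖dt (ℓ j) x‖ *
            ‖dt (cr (ℓ k) (ℓ i)) (ℓ l)‖ + ‖dt (ℓ k) x‖ * ‖dt (cr (ℓ i) (ℓ j)) (ℓ l)‖ := by
            rw [← norm_mul, ← norm_mul, ← norm_mul]
            exact (norm_add_le _ _).trans (add_le_add_left (norm_add_le _ _) _)
        _ ≤ ρ * (nm (cr (ℓ j) (ℓ k)) * nm (ℓ l)) + ρ * (nm (cr (ℓ k) (ℓ i)) * nm (ℓ l))
            + ρ * (nm (cr (ℓ i) (ℓ j)) * nm (ℓ l)) := by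
            have d1 := dt_le (cr (ℓ j) (ℓ k)) (ℓ l)
            have d2 := dt_le (cr (ℓ k) (ℓ i)) (ℓ l)
            have d3 := dt_le (cr (ℓ i) (ℓ j)) (ℓ l)
            gcongr
        _ = _ := by ring
    have h5 : ‖det3 (ℓ i) (ℓ j) (ℓ k)‖ * ‖dt (ℓ l) x‖
        ≤ ‖det3 (ℓ i) (ℓ j) (ℓ k)‖ * (C * ρ) := by
      refine h4.trans ?_
      have := mul_le_mul_of_nonneg_right hBl hρ
      nlinarith
    exact le_of_mul_le_mul_left h5 hDp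

theorem real_ineq {u0 u1 m : ℝ} {c ν d t q κ : ℕ} (h0 : 0 ≤ u0) (h01 : u0 ≤ u1) (h1m : u1 ≤ m)
    (hc : c ≤ ν) (hν : ν ≤ d) (ht : 1 ≤ t) (htq : t ≤ q) (hd : c * t ≤ d)
    (hκ : κ + 2 * d = q * c) :
    u1 ^ (d - ν) * u0 ^ ν * m ^ (d + κ) ≤ u0 ^ c * u1 ^ (c * (t - 1)) * m ^ (c * (q - t)) := by
  have h1 : 0 ≤ u1 := h0.trans h01
  have hm : 0 ≤ m := h1.trans h1m
  have hct : c * (t - 1) + c = c * t := by
    obtain ⟨s, rfl⟩ : ∃ s, t = s + 1 := ⟨t - 1, by omega⟩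
    simp [mul_add]
  have hcq : c * (q - t) + c * t = q * c := by
    rw [← mul_add, Nat.sub_add_cancel htq, mul_comm]
  calc u1 ^ (d - ν) * u0 ^ ν * m ^ (d + κ)
      = u1 ^ (d - ν) * (u0 ^ c * u0 ^ (ν - c)) * m ^ (d + κ) := by
        rw [← pow_add]
        congr 3
        omega
    _ ≤ u1 ^ (d - ν) * (u0 ^ c * u1 ^ (ν - c)) * m ^ (d + κ) := by gcongr
    _ = u0 ^ c * (u1 ^ (c * (t - 1)) * u1 ^ (d - c * t)) * m ^ (d + κ) := by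
        have e : u1 ^ (c * (t - 1)) * u1 ^ (d - c * t) = u1 ^ (d - ν) * u1 ^ (ν - c) := by
          rw [← pow_add, ← pow_add]
          congr 1
          omega
        rw [e]
        ring
    _ ≤ u0 ^ c * (u1 ^ (c * (t - 1)) * m ^ (d - c * t)) * m ^ (d + κ) := by gcongr
    _ = u0 ^ c * u1 ^ (c * (t - 1)) * m ^ (c * (q - t)) := by
        rw [mul_assoc, mul_assoc, ← pow_add, ← mul_assoc]
        congr 2
        omega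

end Pool.Agent.W602.TL
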