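import Pool.Agent.W602.TL.Point

/-!
The pointwise estimate for forms in the tangent line, conclusion.
-/

set_option autoImplicit false

namespace Pool.Agent.W602.TL

open Filter Metric Real Set Topology Pool.Agent.H159R3.NV Pool.Agent.W602.NC MvPolynomial

/-- The lines `ℓ i` are different and at most `K` of them pass through any point. -/
structure Arr {p : ℕ} (ℓ : Fin (p + 1) → V) (K : ℕ) : Prop where
  dist : ∀ i j, i ≠ j → cr (ℓ i) (ℓ j) ≠ 0
  conc : ∀ x : V, x ≠ 0 → (Finset.univ.filter fun i => dt (ℓ i) x = 0).card ≤ K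
  hK : K < p + 1
  hp : 1 ≤ p

theorem Arr.ne {p : ℕ} {ℓ : Fin (p + 1) → V} {K : ℕ} (h : Arr ℓ K) (i : Fin (p + 1)) : ℓ i ≠ 0 := by
  intro h0
  have hp := h.hp
  obtain ⟨j, hj⟩ : ∃ j : Fin (p + 1), i ≠ j := by
    by_cases hi : i = 0
    · exact ⟨⟨1, by omega⟩, by rw [hi]; intro h1; have := congrArg Fin.val h1; simp at this⟩
    · exact ⟨0, hi⟩
  apply h.dist i j hj
  rw [h0]
  apply ext3 <;> simp

/-- two smallest values -/
theorem two_smallest {p : ℕ} (hp : 1 ≤ p) (u : Fin (p + 1) → ℝ) : ∃ i0 i1, i1 ≠ i0 ∧ u i0 ≤ u i1 ∧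
    ∀ i, i ≠ i0 → u i1 ≤ u i := by
  classical
  obtain ⟨i0, _, h0⟩ := Finset.exists_min_image Finset.univ u ⟨0, Finset.mem_univ _⟩
  have hne : (Finset.univ.erase i0).Nonempty := by
    rw [← Finset.card_pos, Finset.card_erase_of_mem (Finset.mem_univ _), Finset.card_univ,
      Fintype.card_fin]
    omega
  obtain ⟨i1, hi1, h1⟩ := Finset.exists_min_image (Finset.univ.erase i0) u hne
  exact ⟨i0, i1, Finset.ne_of_mem_erase hi1, h0 i1 (Finset.mem_univ _),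
    fun i hi => h1 i (Finset.mem_erase.mpr ⟨hi, Finset.mem_univ _⟩)⟩

theorem det_cyc (a b c : V) : det3 a b c = det3 b c a := by
  unfold det3 dt; simp only [cr0, cr1, cr2]; ring

/-- lower bound for a product -/
theorem prod_lower {p : ℕ} (u : Fin (p + 1) → ℝ) (hu : ∀ i, 0 < u i) {T : Finset (Fin (p + 1))}
    {i0 i1 : Fin (p + 1)} (hi0 : i0 ∈ T) (h1 : ∀ i, i ≠ i0 → u i1 ≤ u i) {m C : ℝ} (hC : 1 ≤ C)
    (hm : 0 ≤ m) (hT : ∀ i, i ∉ T → m ≤ C * u i) (c : ℕ) :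
    u i0 ^ c * u i1 ^ (c * (T.card - 1)) * m ^ (c * (p + 1 - T.card))
      ≤ C ^ (c * (p + 1)) * ∏ i, u i ^ c := by
  classical
  have e1 : ∏ i, u i ^ c = (u i0 ^ c * ∏ i ∈ T.erase i0, u i ^ c) * ∏ i ∈ Tᶜ, u i ^ c := by
    rw [Finset.mul_prod_erase T (fun i => u i ^ c) hi0, Finset.prod_mul_prod_compl]
  have e2 : u i1 ^ (c * (T.card - 1)) ≤ ∏ i ∈ T.erase i0, u i ^ c := by
    rw [pow_mul, ← Finset.card_erase_of_mem hi0, ← Finset.prod_const]
    apply Finset.prod_le_prod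
    · intro i _
      exact pow_nonneg (hu i1).le c
    · intro i hi
      exact pow_le_pow_left₀ (hu i1).le (h1 i (Finset.ne_of_mem_erase hi)) c
  have e3 : m ^ (c * (p + 1 - T.card)) ≤ C ^ (c * (p + 1)) * ∏ i ∈ Tᶜ, u i ^ c := by
    have hcard : Tᶜ.card = p + 1 - T.card := by rw [Finset.card_compl, Fintype.card_fin]
    calc m ^ (c * (p + 1 - T.card)) = ∏ i ∈ Tᶜ, m ^ c := by
          rw [Finset.prod_const, ← pow_mul, hcard]
      _ ≤ ∏ i ∈ Tᶜ, (C ^ c * u i ^ c) := by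
          apply Finset.prod_le_prod
          · intro i _
            exact pow_nonneg hm c
          · intro i hi
            rw [← mul_pow]
            exact pow_le_pow_left₀ hm (hT i (Finset.mem_compl.mp hi)) c
      _ = (C ^ c) ^ (p + 1 - T.card) * ∏ i ∈ Tᶜ, u i ^ c := by
          rw [Finset.prod_mul_distrib, Finset.prod_const, hcard]
      _ ≤ C ^ (c * (p + 1)) * ∏ i ∈ Tᶜ, u i ^ c := by
          apply mul_le_mul_of_nonneg_right _ (Finset.prod_nonneg fun i _ => pow_nonneg (hu i).le c)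
          rw [← pow_mul]
          exact pow_le_pow_right₀ hC (Nat.mul_le_mul_left c (Nat.sub_le _ _))
  have hn1 : 0 ≤ u i1 ^ (c * (T.card - 1)) := pow_nonneg (hu i1).le _
  have hn0 : 0 ≤ u i0 ^ c := pow_nonneg (hu i0).le _
  have hnm : 0 ≤ m ^ (c * (p + 1 - T.card)) := pow_nonneg hm _
  have hnT : 0 ≤ ∏ i ∈ T.erase i0, u i ^ c := Finset.prod_nonneg fun i _ => pow_nonneg (hu i).le c
  calc _ ≤ u i0 ^ c * (∏ i ∈ T.erase i0, u i ^ c) * (C ^ (c * (p + 1)) * ∏ i ∈ Tᶜ, u i ^ c) := by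
        gcongr
    _ = _ := by rw [e1]; ring

/-- adapted coordinates -/
theorem coords {a b c : V} (hD : det3 a b c ≠ 0) (x : V) :
    x = (dt ((det3 a b c)⁻¹ • cr b c) x) • a + (dt ((det3 a b c)⁻¹ • cr c a) x) • b
      + (dt ((det3 a b c)⁻¹ • cr a b) x) • c := by
  have h := expand' a b c x
  have e : ∀ v : V, dt ((det3 a b c)⁻¹ • v) x = (det3 a b c)⁻¹ * dt x v := by
    intro v
    rw [dt_comm, dt_smul]
  rw [e, e, e, mul_smul, mul_smul, mul_smul, ← smul_add, ← smul_add, ← h, smul_smul,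
    inv_mul_cancel₀ hD, one_smul]

/-- the vector of the adapted coordinates -/
noncomputable def crd (a b c x : V) : V :=
  ![dt ((det3 a b c)⁻¹ • cr b c) x, dt ((det3 a b c)⁻¹ • cr c a) x, dt ((det3 a b c)⁻¹ • cr a b) x]

theorem eval_crd {a b c : V} (hD : det3 a b c ≠ 0) (x : V) (G : TP) :
    eval x G = eval (crd a b c x) (sub3 a b c G) := by
  rw [eval_sub3]
  congr 1
  have : eval x G = eval ((dt ((det3 a b c)⁻¹ • cr b c) x) • a
      + (dt ((det3 a b c)⁻¹ • cr c a) x) • b + (dt ((det3 a b c)⁻¹ • cr a b) x) • c) G := by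
    rw [← coords hD x]
  exact congrArg (fun v => eval v) (coords hD x)

/-- the pointwise estimate -/
theorem pointwise {p : ℕ} {ℓ : Fin (p + 1) → V} {K : ℕ} (hA : Arr ℓ K) {c d ν κ : ℕ} (hc : c ≤ ν)
    (hν : ν ≤ d) (hd : c * K ≤ d) (hκ : κ + 2 * d = (p + 1) * c) {b e : Fin (p + 1) → V}
    (hb : ∀ i, det3 (ℓ i) (b i) (e i) ≠ 0) {G : TP} (hG : G.IsHomogeneous d)
    (hv : ∀ i, Van ν (sub3 (ℓ i) (b i) (e i) G)) :
    ∃ C : ℝ, 1 ≤ C ∧ ∀ F : ℂ → V, Ent3 F → ∀ z ε, 0 < ε → ε ≤ 1 → GoodAt (UF ℓ F) z ε →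
      ‖eval (Wd F z) G‖ * sup (UF ℓ F) z ^ κ
        ≤ C * (1 / ε) ^ d * ∏ i, ‖UF ℓ F i z‖ ^ c := by
  classical
  obtain ⟨C0, hC0, hC⟩ := exists_C ℓ
  set x0 : Fin (p + 1) → V := fun i => (det3 (ℓ i) (b i) (e i))⁻¹ • cr (b i) (e i) with hx0
  set x1 : Fin (p + 1) → V := fun i => (det3 (ℓ i) (b i) (e i))⁻¹ • cr (e i) (ℓ i) with hx1
  set x2 : Fin (p + 1) → V := fun i => (det3 (ℓ i) (b i) (e i))⁻¹ • cr (ℓ i) (b i) with hx2
  set N0 : ℝ := 1 + ∑ i, (nm (x0 i) + nm (x1 i) + nm (x2 i)) with hN0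
  have hNi : ∀ i, nm (x0 i) ≤ N0 ∧ nm (x1 i) ≤ N0 ∧ nm (x2 i) ≤ N0 := by
    intro i
    have h1 := Finset.single_le_sum (f := fun i => nm (x0 i) + nm (x1 i) + nm (x2 i))
      (fun i _ => add_nonneg (add_nonneg (nm_nonneg _) (nm_nonneg _)) (nm_nonneg _))
      (Finset.mem_univ i)
    have h2 := nm_nonneg (x0 i)
    have h3 := nm_nonneg (x1 i)
    have h4 := nm_nonneg (x2 i)
    refine ⟨?_, ?_, ?_⟩ <;> linarith
  have hN01 : 1 ≤ N0 := by
    have : 0 ≤ ∑ i, (nm (x0 i) + nm (x1 i) + nm (x2 i)) := Finset.sum_nonneg fun i _ =>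
      add_nonneg (add_nonneg (nm_nonneg _) (nm_nonneg _)) (nm_nonneg _)
    linarith
  set Cg : ℝ := 1 + ∑ i, ∑ m ∈ (sub3 (ℓ i) (b i) (e i) G).support,
    ‖coeff m (sub3 (ℓ i) (b i) (e i) G)‖ with hCg
  have hCgi : ∀ i, (∑ m ∈ (sub3 (ℓ i) (b i) (e i) G).support,
      ‖coeff m (sub3 (ℓ i) (b i) (e i) G)‖) ≤ Cg := by
    intro i
    have h1 := Finset.single_le_sum (f := fun i => ∑ m ∈ (sub3 (ℓ i) (b i) (e i) G).support,
      ‖coeff m (sub3 (ℓ i) (b i) (e i) G)‖)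
      (fun i _ => Finset.sum_nonneg fun m _ => norm_nonneg _) (Finset.mem_univ i)
    linarith
  have hCg1 : 1 ≤ Cg := by
    have : 0 ≤ ∑ i, ∑ m ∈ (sub3 (ℓ i) (b i) (e i) G).support,
        ‖coeff m (sub3 (ℓ i) (b i) (e i) G)‖ :=
      Finset.sum_nonneg fun i _ => Finset.sum_nonneg fun m _ => norm_nonneg _
    linarith
  set C3 : ℝ := C0 * N0 * Real.exp 1 with hC3
  have hC31 : 1 ≤ C3 := by
    have h1 : (1 : ℝ) ≤ Real.exp 1 := Real.one_le_exp (by norm_num)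
    calc (1 : ℝ) = 1 * 1 * 1 := by ring
      _ ≤ C0 * N0 * Real.exp 1 := by gcongr
  refine ⟨Cg * C3 ^ d * C0 ^ (c * (p + 1)), ?_, ?_⟩
  · calc (1 : ℝ) = 1 * 1 * 1 := by ring
      _ ≤ _ := by
        gcongr
        · exact one_le_pow₀ hC31
        · exact one_le_pow₀ hC0
  intro F hF z ε hε hε1 hg
  set U := UF ℓ F with hU
  set u : Fin (p + 1) → ℝ := fun i => ‖U i z‖ with hu
  have hne : ∀ i, U i z ≠ 0 := fun i => hg.1 i z (mem_closedBall_self hε.le)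
  have hup : ∀ i, 0 < u i := fun i => norm_pos_iff.mpr (hne i)
  set m : ℝ := sup U z with hm
  have hum : ∀ i, u i ≤ m := fun i => le_sup U z i
  have hm0 : 0 < m := sup_pos (hne 0)
  obtain ⟨i0, i1, h10, h01, hmin⟩ := two_smallest hA.hp u
  set T : Finset (Fin (p + 1)) := Finset.univ.filter fun i => dt (ℓ i) (cr (ℓ i0) (ℓ i1)) = 0
    with hT
  have hcr := hA.dist i0 i1 h10.symm
  have hTK : T.card ≤ K := hA.conc _ hcr
  have hi0T : i0 ∈ T := by
    rw [hT, Finset.mem_filter]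
    exact ⟨Finset.mem_univ _, dt_cr_left _ _⟩
  have hi1T : i1 ∈ T := by
    rw [hT, Finset.mem_filter]
    exact ⟨Finset.mem_univ _, dt_cr_right _ _⟩
  have hTp : T.card ≤ p + 1 := by
    have := Finset.card_le_univ T
    rwa [Fintype.card_fin] at this
  have hT1 : 1 ≤ T.card := Finset.card_pos.mpr ⟨i0, hi0T⟩
  -- the large forms
  have hbig : ∀ i, i ∉ T → m ≤ C0 * u i := by
    intro i hi
    have hD : det3 (ℓ i0) (ℓ i1) (ℓ i) ≠ 0 := by
      intro h0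
      apply hi
      rw [hT, Finset.mem_filter]
      refine ⟨Finset.mem_univ _, ?_⟩
      rw [← det_cyc] at h0
      exact h0
    have hii0 : i ≠ i0 := by rintro rfl; exact hi hi0T
    have h1 := (hC i0 i1 i hD).2.2 (F z) (u i) (h01.trans (hmin i hii0)) (hmin i hii0) le_rfl
    obtain ⟨j, hj⟩ := sup_attained U z
    rw [hm, hj]
    exact h1 j
  -- the tangent line
  obtain ⟨k, hk⟩ : ∃ k, k ∉ T := by
    by_contra hcon
    push Not at hcon
    have : T = Finset.univ := Finset.eq_univ_iff_forall.mpr hcon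
    rw [this, Finset.card_univ, Fintype.card_fin] at hTK
    have := hA.hK
    omega
  have hD : det3 (ℓ i0) (ℓ i1) (ℓ k) ≠ 0 := by
    intro h0
    apply hk
    rw [hT, Finset.mem_filter]
    refine ⟨Finset.mem_univ _, ?_⟩
    rw [← det_cyc] at h0
    exact h0
  have hp := pair_le ℓ hF hε hg
  have hE : 0 < Real.exp 1 * (1 / ε) := by positivity
  set ρA : ℝ := Real.exp 1 * (1 / ε) * (u i1 * m) with hρA
  set ρB : ℝ := Real.exp 1 * (1 / ε) * (u i0 * m) with hρB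
  have b1 : ‖dt (cr (ℓ i1) (ℓ k)) (Wd F z)‖ ≤ ρA :=
    (hp i1 k).trans (mul_le_mul_of_nonneg_left
      (mul_le_mul_of_nonneg_left (hum k) (hup i1).le) hE.le)
  have b2 : ‖dt (cr (ℓ k) (ℓ i0)) (Wd F z)‖ ≤ ρB := by
    refine (hp k i0).trans (mul_le_mul_of_nonneg_left ?_ hE.le)
    rw [mul_comm]
    exact mul_le_mul_of_nonneg_left (hum k) (hup i0).le
  have b3 : ‖dt (cr (ℓ i0) (ℓ i1)) (Wd F z)‖ ≤ ρB :=
    (hp i0 i1).trans (mul_le_mul_of_nonneg_left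
      (mul_le_mul_of_nonneg_left (hum i1) (hup i0).le) hE.le)
  have hBA : ρB ≤ ρA := by
    rw [hρA, hρB]
    gcongr
  have hρB0 : 0 ≤ ρB := by positivity
  have hρA0 : 0 ≤ ρA := hρB0.trans hBA
  obtain ⟨hC1, hC2, -⟩ := hC i0 i1 k hD
  set A : ℝ := C0 * N0 * ρA with hAdef
  set B : ℝ := C0 * N0 * ρB with hBdef
  have y0 : ‖crd (ℓ i0) (b i0) (e i0) (Wd F z) 0‖ ≤ A := by
    have h1 := hC1 (x0 i0) (Wd F z) ρA b1 (b2.trans hBA) (b3.trans hBA)
    refine h1.trans ?_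
    rw [hAdef]
    gcongr
    exact (hNi i0).1
  have y1 : ‖crd (ℓ i0) (b i0) (e i0) (Wd F z) 1‖ ≤ B := by
    have h1 := hC2 (x1 i0) (Wd F z) ρB (by
      rw [hx1]
      simp only
      rw [dt_comm, dt_smul, dt_cr_right, mul_zero]) b2 b3
    refine h1.trans ?_
    rw [hBdef]
    gcongr
    exact (hNi i0).2.1
  have y2 : ‖crd (ℓ i0) (b i0) (e i0) (Wd F z) 2‖ ≤ B := by
    have h1 := hC2 (x2 i0) (Wd F z) ρB (by
      rw [hx2]
      simp only
      rw [dt_comm, dt_smul, dt_cr_left, mul_zero]) b2 b3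
    refine h1.trans ?_
    rw [hBdef]
    gcongr
    exact (hNi i0).2.2
  have hval := van_bound (sub3_hom _ _ _ hG) (hv i0) (by positivity : (0 : ℝ) ≤ B)
    (by rw [hAdef, hBdef]; gcongr) y0 y1 y2
  rw [← eval_crd (hb i0)] at hval
  have e1 : A ^ (d - ν) * B ^ ν = (C3 * (1 / ε)) ^ d * (u i1 ^ (d - ν) * u i0 ^ ν * m ^ d) := by
    have e2 : A = C3 * (1 / ε) * (u i1 * m) := by rw [hAdef, hρA, hC3]; ring
    have e3 : B = C3 * (1 / ε) * (u i0 * m) := by rw [hBdef, hρB, hC3]; ring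
    rw [e2, e3, mul_pow, mul_pow, mul_pow _ _ ν, mul_pow _ _ ν]
    have e4 : (C3 * (1 / ε)) ^ d = (C3 * (1 / ε)) ^ (d - ν) * (C3 * (1 / ε)) ^ ν := by
      rw [← pow_add, Nat.sub_add_cancel hν]
    have e5 : m ^ d = m ^ (d - ν) * m ^ ν := by rw [← pow_add, Nat.sub_add_cancel hν]
    rw [e4, e5]
    ring_nf
  have h6 := real_ineq (hup i0).le h01 (hum i1) hc hν hT1 hTp
    (le_trans (Nat.mul_le_mul_left c hTK) hd) hκ
  have h7 := prod_lower u hup hi0T hmin hC0 hm0.le hbig c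
  have hprod : 0 ≤ ∏ i, u i ^ c := Finset.prod_nonneg fun i _ => pow_nonneg (hup i).le c
  calc ‖eval (Wd F z) G‖ * m ^ κ
      ≤ (Cg * (A ^ (d - ν) * B ^ ν)) * m ^ κ := by
        apply mul_le_mul_of_nonneg_right _ (pow_nonneg hm0.le κ)
        refine hval.trans ?_
        apply mul_le_mul_of_nonneg_right (hCgi i0)
        positivity
    _ = Cg * (C3 * (1 / ε)) ^ d * (u i1 ^ (d - ν) * u i0 ^ ν * m ^ (d + κ)) := by
        rw [e1, pow_add m d κ]
        ring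
    _ ≤ Cg * (C3 * (1 / ε)) ^ d * (C0 ^ (c * (p + 1)) * ∏ i, u i ^ c) := by
        apply mul_le_mul_of_nonneg_left (h6.trans h7)
        positivity
    _ = _ := by rw [mul_pow]; ring

end Pool.Agent.W602.TL
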