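import Pool.Agent.W602.TL.Geo

/-!
Ternary forms with prescribed multiplicities at given points.
-/

set_option autoImplicit false

namespace Pool.Agent.W602.TL

open Filter Metric Real Set Topology Pool.Agent.H159R3.NV Pool.Agent.W602.NC MvPolynomial

/-- ternary polynomials -/
abbrev TP : Type := MvPolynomial (Fin 3) ℂ

/-- substitution -/
noncomputable def sub3 (a b c : V) : TP →ₐ[ℂ] TP :=
  aeval fun j => C (a j) * X 0 + C (b j) * X 1 + C (c j) * X 2

theorem eval_sub3 (a b c y : V) (G : TP) :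
    eval y (sub3 a b c G) = eval (y 0 • a + y 1 • b + y 2 • c) G := by
  unfold sub3
  rw [aeval_def, eval_eval₂, eval₂_eq_eval_map]
  have h1 : (eval y).comp (algebraMap ℂ TP) = RingHom.id ℂ := by
    ext z
    simp
  rw [h1, MvPolynomial.map_id]
  congr 2
  funext j
  simp only [map_add, map_mul, eval_C, eval_X, Pi.add_apply, Pi.smul_apply, smul_eq_mul]
  ring

theorem sub3_hom (a b c : V) {G : TP} {d : ℕ} (hG : G.IsHomogeneous d) :
    (sub3 a b c G).IsHomogeneous d := by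
  have h := hG.aeval (fun j => C (a j) * X 0 + C (b j) * X 1 + C (c j) * X 2 : Fin 3 → TP)
    (n := 1) (fun j => ((isHomogeneous_C_mul_X _ _).add (isHomogeneous_C_mul_X _ _)).add
      (isHomogeneous_C_mul_X _ _))
  rw [one_mul] at h
  exact h

/-- vanishing of the coefficients of low order in the last two variables -/
def Van (ν : ℕ) (G : TP) : Prop := ∀ m : Fin 3 →₀ ℕ, m 1 + m 2 < ν → coeff m G = 0

theorem supp_deg {G : TP} {d : ℕ} (hG : G.IsHomogeneous d) {m : Fin 3 →₀ ℕ} (hm : m ∈ G.support) :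
    m 0 + m 1 + m 2 = d := by
  have h := hG (mem_support_iff.mp hm)
  rw [Finsupp.weight_apply, Finsupp.sum_fintype _ _ (by simp)] at h
  simpa [Fin.sum_univ_three] using h

theorem supp_van {G : TP} {ν : ℕ} (hG : Van ν G) {m : Fin 3 →₀ ℕ} (hm : m ∈ G.support) :
    ν ≤ m 1 + m 2 := by
  by_contra h
  exact mem_support_iff.mp hm (hG m (not_le.mp h))

theorem eval_three (G : TP) (y : V) : eval y G
    = ∑ m ∈ G.support, coeff m G * (y 0 ^ m 0 * (y 1 ^ m 1 * y 2 ^ m 2)) := by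
  rw [eval_eq']
  refine Finset.sum_congr rfl fun m _ => ?_
  rw [Fin.prod_univ_three]
  ring

theorem van_bound {G : TP} {d ν : ℕ} (hh : G.IsHomogeneous d) (hv : Van ν G) {y : V} {A B : ℝ}
    (hB : 0 ≤ B) (hBA : B ≤ A) (h0 : ‖y 0‖ ≤ A) (h1 : ‖y 1‖ ≤ B) (h2 : ‖y 2‖ ≤ B) :
    ‖eval y G‖ ≤ (∑ m ∈ G.support, ‖coeff m G‖) * (A ^ (d - ν) * B ^ ν) := by
  rw [eval_three, Finset.sum_mul]
  refine (norm_sum_le _ _).trans (Finset.sum_le_sum fun m hm => ?_)
  rw [norm_mul]
  refine mul_le_mul_of_nonneg_left ?_ (norm_nonneg _)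
  rw [norm_mul, norm_mul, norm_pow, norm_pow, norm_pow]
  have hd := supp_deg hh hm
  have hn := supp_van hv hm
  have hA : 0 ≤ A := hB.trans hBA
  calc ‖y 0‖ ^ m 0 * (‖y 1‖ ^ m 1 * ‖y 2‖ ^ m 2)
      ≤ A ^ m 0 * (B ^ m 1 * B ^ m 2) := by gcongr
    _ = A ^ m 0 * (B ^ (m 1 + m 2 - ν) * B ^ ν) := by
        rw [← pow_add, ← pow_add]
        congr 2
        omega
    _ ≤ A ^ m 0 * (A ^ (m 1 + m 2 - ν) * B ^ ν) := by gcongr
    _ = A ^ (d - ν) * B ^ ν := by
        rw [← mul_assoc, ← pow_add]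
        congr 2
        omega

theorem ord_mul_ge {f g : ℂ → ℂ} {x : ℂ} {a b : ℕ} (hf : AnalyticAt ℂ f x) (hg : AnalyticAt ℂ g x)
    (ha : (a : ℕ∞) ≤ analyticOrderAt f x) (hb : (b : ℕ∞) ≤ analyticOrderAt g x) :
    ((a + b : ℕ) : ℕ∞) ≤ analyticOrderAt (fun z => f z * g z) x := by
  have e : (fun z => f z * g z) = f * g := rfl
  rw [e, analyticOrderAt_mul hf hg]
  push_cast
  exact add_le_add ha hb

theorem ord_pow_ge {f : ℂ → ℂ} {x : ℂ} {a : ℕ} (hf : AnalyticAt ℂ f x)
    (ha : (a : ℕ∞) ≤ analyticOrderAt f x) (k : ℕ) :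
    ((k * a : ℕ) : ℕ∞) ≤ analyticOrderAt (fun z => f z ^ k) x := by
  have e : (fun z => f z ^ k) = f ^ k := rfl
  rw [e, analyticOrderAt_pow hf]
  push_cast
  rw [nsmul_eq_mul]
  gcongr

theorem ord_const_mul_ge {f : ℂ → ℂ} {x : ℂ} {N : ℕ∞} (hf : AnalyticAt ℂ f x)
    (h : N ≤ analyticOrderAt f x) (c : ℂ) : N ≤ analyticOrderAt (fun z => c * f z) x := by
  have e : (fun z => c * f z) = (fun _ => c) * f := rfl
  rw [e, analyticOrderAt_mul analyticAt_const hf]
  exact h.trans (self_le_add_left _ _)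

theorem van_order {G : TP} {d ν r β : ℕ} (hh : G.IsHomogeneous d) (hv : Van ν G) {y : ℂ → V}
    {x : ℂ} (ha : ∀ j, AnalyticAt ℂ (fun z => y z j) x)
    (h0 : (r : ℕ∞) ≤ analyticOrderAt (fun z => y z 0) x)
    (h1 : (β : ℕ∞) ≤ analyticOrderAt (fun z => y z 1) x)
    (h2 : (β : ℕ∞) ≤ analyticOrderAt (fun z => y z 2) x) (hr : r ≤ β) :
    (((d - ν) * r + ν * β : ℕ) : ℕ∞) ≤ analyticOrderAt (fun z => eval (y z) G) x := by
  have e : (fun z => eval (y z) G) = fun z => ∑ m ∈ G.support,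
      coeff m G * (y z 0 ^ m 0 * (y z 1 ^ m 1 * y z 2 ^ m 2)) := by
    funext z
    rw [eval_three]
  rw [e]
  apply ord_sum_ge
  intro m hm
  have a0 := (ha 0).pow (m 0)
  have a1 := (ha 1).pow (m 1)
  have a2 := (ha 2).pow (m 2)
  apply ord_const_mul_ge (a0.mul (a1.mul a2))
  have h3 := ord_mul_ge a0 (a1.mul a2) (ord_pow_ge (ha 0) h0 (m 0))
    (ord_mul_ge a1 a2 (ord_pow_ge (ha 1) h1 (m 1)) (ord_pow_ge (ha 2) h2 (m 2)))
  refine le_trans ?_ h3
  have hd := supp_deg hh hm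
  have hn := supp_van hv hm
  have key : (d - ν) * r + ν * β ≤ m 0 * r + (m 1 * β + m 2 * β) := by
    obtain ⟨k, hk⟩ : ∃ k, m 1 + m 2 = ν + k := ⟨m 1 + m 2 - ν, by omega⟩
    have e1 : d - ν = m 0 + k := by omega
    have e2 : m 1 * β + m 2 * β = (ν + k) * β := by rw [← hk]; ring
    rw [e1, e2]
    have := Nat.mul_le_mul_left k hr
    nlinarith
  exact_mod_cast key

/-- index set for the coefficients -/
abbrev Ix (n : ℕ) : Type := Σ k : Fin n, Fin (k + 1)

theorem card_Ix (n : ℕ) : 2 * Fintype.card (Ix n) = n * (n + 1) := by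
  rw [Fintype.card_sigma]
  simp only [Fintype.card_fin]
  rw [Fin.sum_univ_eq_sum_range (fun k => k + 1) n]
  induction n with
  | zero => simp
  | succ n ih => rw [Finset.sum_range_succ, mul_add, ih]; ring

/-- exponents -/
noncomputable def mon (d : ℕ) {n : ℕ} (i : Ix n) : Fin 3 →₀ ℕ :=
  Finsupp.equivFunOnFinite.symm ![d - i.1, i.2, i.1 - i.2]

theorem mon_inj {d n : ℕ} {i j : Ix n} (h : mon d i = mon d j) : i = j := by
  have h1 : (i.2 : ℕ) = j.2 := by
    have := congrArg (fun m => m 1) h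
    simpa [mon] using this
  have h2 : (i.1 : ℕ) - i.2 = j.1 - j.2 := by
    have := congrArg (fun m => m 2) h
    simpa [mon] using this
  have hi := i.2.2
  have hj := j.2.2
  have h3 : (i.1 : ℕ) = j.1 := by omega
  obtain ⟨i1, i2⟩ := i
  obtain ⟨j1, j2⟩ := j
  have h4 : i1 = j1 := Fin.ext h3
  subst h4
  have h5 : i2 = j2 := Fin.ext h1
  rw [h5]

/-- the form with given coefficients -/
noncomputable def frm (d : ℕ) : (Ix (d + 1) → ℂ) →ₗ[ℂ] TP where
  toFun c := ∑ i, monomial (mon d i) (c i)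
  map_add' c c' := by
    simp only [Pi.add_apply, map_add]
    rw [Finset.sum_add_distrib]
  map_smul' t c := by
    simp only [Pi.smul_apply, RingHom.id_apply, Finset.smul_sum, smul_monomial]

theorem frm_coeff (d : ℕ) (c : Ix (d + 1) → ℂ) (i : Ix (d + 1)) :
    coeff (mon d i) (frm d c) = c i := by
  classical
  change coeff (mon d i) (∑ j, monomial (mon d j) (c j)) = c i
  rw [coeff_sum, Finset.sum_eq_single i]
  · rw [coeff_monomial, if_pos rfl]
  · intro j _ hj
    rw [coeff_monomial, if_neg]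
    intro h
    exact hj (mon_inj h)
  · intro h
    exact absurd (Finset.mem_univ i) h

theorem frm_hom (d : ℕ) (c : Ix (d + 1) → ℂ) : (frm d c).IsHomogeneous d := by
  change (∑ j, monomial (mon d j) (c j)).IsHomogeneous d
  apply IsHomogeneous.sum
  intro i _
  apply isHomogeneous_monomial
  have h1 := i.1.2
  have h2 := i.2.2
  rw [Finsupp.degree_eq_sum, Fin.sum_univ_three]
  simp only [mon, Finsupp.equivFunOnFinite_symm_apply_apply, Matrix.cons_val_zero,
    Matrix.cons_val_one, Matrix.cons_val_two, Matrix.tail_cons, Matrix.head_cons]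
  omega

/-- existence of forms with given multiplicities at the points `ℓ i` -/
theorem exists_form {q d ν : ℕ} (h : q * (ν * (ν + 1)) < (d + 1) * (d + 2)) (a b c : Fin q → V) :
    ∃ G : TP, G.IsHomogeneous d ∧ G ≠ 0 ∧ ∀ i, Van ν (sub3 (a i) (b i) (c i) G) := by
  classical
  let Ψ : (Ix (d + 1) → ℂ) →ₗ[ℂ] (Fin q × Ix ν → ℂ) :=
    { toFun := fun x p => coeff (mon d p.2) (sub3 (a p.1) (b p.1) (c p.1) (frm d x))
      map_add' := fun x y => by
        funext p
        simp only [map_add, coeff_add, Pi.add_apply]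
      map_smul' := fun t x => by
        funext p
        simp only [map_smul, coeff_smul, Pi.smul_apply, RingHom.id_apply] }
  have hlt : Module.finrank ℂ (Fin q × Ix ν → ℂ) < Module.finrank ℂ (Ix (d + 1) → ℂ) := by
    rw [Module.finrank_fintype_fun_eq_card, Module.finrank_fintype_fun_eq_card, Fintype.card_prod,
      Fintype.card_fin]
    have h1 := card_Ix ν
    have h2 := card_Ix (d + 1)
    nlinarith
  have hker := LinearMap.ker_ne_bot_of_finrank_lt (f := Ψ) hlt
  obtain ⟨x, hx, hx0⟩ := (Submodule.ne_bot_iff _).mp hker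
  refine ⟨frm d x, frm_hom d x, ?_, ?_⟩
  · intro h0
    apply hx0
    funext i
    rw [← frm_coeff d x i, h0]
    simp
  · intro i m hm
    by_cases hmd : m 0 + m 1 + m 2 = d
    · have hj : m 1 < m 1 + m 2 + 1 := by omega
      let p : Ix ν := ⟨⟨m 1 + m 2, hm⟩, ⟨m 1, hj⟩⟩
      have e : m = mon d p := by
        ext j
        fin_cases j
        · simp [mon, p]; omega
        · simp [mon, p]
        · simp [mon, p]
      rw [e]
      exact congrFun (LinearMap.mem_ker.mp hx) (i, p)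
    · by_contra h0
      exact hmd (supp_deg (sub3_hom _ _ _ (frm_hom d x)) (mem_support_iff.mpr h0))

end Pool.Agent.W602.TL
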